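import Pool.Agent.Helper3.AK.Defs

/-! Project FS (MP_75608d_al), part START: definitions.

Two groups of `m` injective `b`-tuples of places; coincidences between the two groups. -/

set_option linter.unusedVariables false

namespace Pool.Agent.Helper86.FS

open Equiv Pool.Agent.Helper3.AK

variable {n k b m M : ℕ}

/-- `m` injective `b`-tuples of places -/
abbrev Cf (n b m : ℕ) : Type := Fin m → (Fin b ↪ Fin n)

/-- two groups of `m` tuples -/
abbrev Om (n b m : ℕ) : Type := Cf n b m × Cf n b m

/-- index of a possible coincidence: the token `(i, a)` of the first group and the number `i'` of a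
tuple of the second group -/
abbrev Ix (b m : ℕ) : Type := Fin m × Fin b × Fin m

/-- diagonal action of a permutation of the places -/
def dact (w : Perm (Fin n)) (ω : Om n b m) : Om n b m :=
  (fun i => (ω.1 i).trans w.toEmbedding, fun i => (ω.2 i).trans w.toEmbedding)

/-- the move: the first group is moved by `y`, the second by `τ * y` -/
def mv (y τ : Perm (Fin n)) (ω : Om n b m) : Om n b m :=
  (fun i => (ω.1 i).trans y.toEmbedding, fun i => (ω.2 i).trans (τ * y).toEmbedding)

/-- the token of the tuple `x'` at the place `P` -/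
noncomputable def tok (x' : Fin b ↪ Fin n) (P : Fin n) : Option (Fin b) := by
  classical
  exact if h : ∃ a', x' a' = P then some h.choose else none

/-- the coincidences: `U ω (i, a, i')` is the token of the tuple `i'` of the second group at the
place of the token `a` of the tuple `i` of the first group -/
noncomputable def U (ω : Om n b m) : Ix b m → Option (Fin b) := fun e =>
  tok (ω.2 e.2.2) (ω.1 e.1 e.2.1)

/-- predictors: for an index and (part of) the coincidences a set of tokens -/
abbrev Pd (b m : ℕ) : Type := Ix b m → (Ix b m → Option (Fin b)) → Finset (Fin b)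

/-- the predictor `S` only depends on the coincidences at the indices in `D` -/
def Loc (D : Finset (Ix b m)) (S : Pd b m) : Prop :=
  ∀ e v v', (∀ d ∈ D, v d = v' d) → S e v = S e v'

/-- the indices outside `D` with an unpredicted coincidence -/
noncomputable def Ex (D : Finset (Ix b m)) (S : Pd b m) (ω : Om n b m) : Finset (Ix b m) := by
  classical
  exact Finset.univ.filter fun e => e ∉ D ∧ ∃ a', U ω e = some a' ∧ a' ∉ S e (U ω)

/-- the number of the special places `c (j, false)` with an unpredicted coincidence -/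
noncomputable def NN (c : Pts n M) (D : Finset (Ix b m)) (S : Pd b m) (ω : Om n b m) : ℕ := by
  classical
  exact (Finset.univ.filter fun j : Fin M =>
    ∃ e ∈ Ex D S ω, ω.1 e.1 e.2.1 = c (j, false)).card

/-- `τ` is the product of the transpositions `(c (j, false), c (j, true))`, `j < M` -/
def IsTau (τ : Perm (Fin n)) (c : Pts n M) : Prop :=
  (∀ j s, τ (c (j, s)) = c (j, !s)) ∧ ∀ v, v ∉ Set.range c → τ v = v

/-- the number of common places of two tuples -/
def ov (x x' : Fin b ↪ Fin n) : ℕ := ((Finset.univ.map x) ∩ (Finset.univ.map x')).card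

/-- any two of the `2 m` tuples have at most `B` common places -/
def GG (B : ℝ) (ω : Om n b m) : Prop :=
  (∀ i i', (ov (ω.1 i) (ω.2 i') : ℝ) ≤ B) ∧ (∀ i i', i ≠ i' → (ov (ω.1 i) (ω.1 i') : ℝ) ≤ B) ∧
    (∀ i i', i ≠ i' → (ov (ω.2 i) (ω.2 i') : ℝ) ≤ B)

/-- clean pairs of places: `P` has exactly one token, `(i, a)` of the first group, `Q` has exactly
one token, `a'` of the tuple `i'` of the second group, and `(i, a, i')` is not in `D` -/
noncomputable def W0 (D : Finset (Ix b m)) (ω : Om n b m) : Finset (Fin n × Fin n) := by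
  classical
  exact Finset.univ.filter fun p => ∃ (e : Ix b m) (a' : Fin b), e ∉ D ∧
    ω.1 e.1 e.2.1 = p.1 ∧ ω.2 e.2.2 a' = p.2 ∧ (∀ i a, ω.1 i a = p.1 → i = e.1) ∧
    (∀ i a, ω.2 i a ≠ p.1) ∧ (∀ i a, ω.1 i a ≠ p.2) ∧ (∀ i a, ω.2 i a = p.2 → i = e.2.2)

/-- the pairs of distinct places, not clean, whose exchange may change the coincidences -/
noncomputable def W2 (D : Finset (Ix b m)) (ω : Om n b m) : Finset (Fin n × Fin n) := by
  classical
  exact (Finset.univ.filter fun p => p.1 ≠ p.2 ∧
    ((∃ i a, ω.1 i a = p.1) ∨ ∃ i a, ω.1 i a = p.2) ∧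
    ((∃ i a, ω.2 i a = p.1) ∨ ∃ i a, ω.2 i a = p.2)) \ W0 D ω

/-- the pair of places which `v` moves to the special pair `j` -/
def pq (c : Pts n M) (v : Perm (Fin n)) (j : Fin M) : Fin n × Fin n :=
  (v⁻¹ (c (j, false)), v⁻¹ (c (j, true)))

/-- the numbers `j` with `pq c v j` in `W` -/
noncomputable def cw (c : Pts n M) (v : Perm (Fin n)) (W : Finset (Fin n × Fin n)) :
    Finset (Fin M) := by
  classical
  exact Finset.univ.filter fun j => pq c v j ∈ W

/-- the numbers of the clean special pairs whose new coincidence (after the move) is predicted -/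
noncomputable def PR (c : Pts n M) (y τ : Perm (Fin n)) (D : Finset (Ix b m)) (S : Pd b m)
    (ω : Om n b m) : Finset (Fin M) := by
  classical
  exact (cw c y (W0 D ω)).filter fun j => ∃ (e : Ix b m) (a' : Fin b), e ∉ D ∧
    ω.1 e.1 e.2.1 = (pq c y j).1 ∧ ω.2 e.2.2 a' = (pq c y j).2 ∧ a' ∈ S e (U (mv y τ ω))

/-- the long range event: few special pairs which may disturb `D`, but `t` predicted ones -/
def Bad1 (c : Pts n M) (y τ : Perm (Fin n)) (D : Finset (Ix b m)) (S : Pd b m) (t t2 : ℕ)
    (ω : Om n b m) : Prop :=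
  (cw c y (W2 D ω)).card ≤ t2 ∧ t ≤ (PR c y τ D S ω).card

/-- nonnegative weights of total mass one -/
def IsLaw {Ω : Type} [Fintype Ω] (P : Ω → ℝ) : Prop := (∀ ω, 0 ≤ P ω) ∧ ∑ ω, P ω = 1

/-- the product function -/
noncomputable def FF (f0 f1 : Fn n b) (ω : Om n b m) : ℝ :=
  (∏ i, f0 (ω.1 i)) * ∏ i, f1 (ω.2 i)

/-- probability that the tuple `a` is moved to the tuple `a'` -/
noncomputable def pT {r : ℕ} (κ : Perm (Fin n) → ℝ) (a a' : Fin r ↪ Fin n) : ℝ := by
  classical
  exact ∑ g ∈ Finset.univ.filter (fun g : Perm (Fin n) => ∀ i, g (a i) = a' i), κ g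

/-- a weight which is uniform on `r`-tuples, `r ≤ 4`, up to `n ^ (-10)` -/
structure Qu (κ : Perm (Fin n) → ℝ) : Prop where
  nonneg : ∀ g, 0 ≤ κ g
  sum : ∑ g, κ g = 1
  qu : ∀ r ≤ 4, ∀ a a' : Fin r ↪ Fin n,
    |pT κ a a' - 1 / (n.descFactorial r : ℝ)| ≤ 1 / (n : ℝ) ^ 10

/-- `(z, y)` has a nearly invariant unit function on `b`-tuples with small support -/
def Bad (z : Fin k → Alt n) (y : Alt n) (b : ℕ) (g K : ℝ) : Prop :=
  ∃ f : Fn n b, ip f f = 1 ∧ (∀ i, 1 - g ≤ ip f (Act (z i : Perm (Fin n)) f)) ∧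
    1 - g ≤ ip f (Act (y : Perm (Fin n)) f) ∧
    (Nat.card {x : Fin b ↪ Fin n // f x ≠ 0} : ℝ) ≤
      Real.exp (K * ((b : ℝ) ^ 2 / n) * Real.log n)

end Pool.Agent.Helper86.FS
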