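import Pool.Agent.Helper86.FS.StartDefs

/-! Project FS (MP_75608d_al), part START: equivariance of the definitions. -/

set_option linter.unusedVariables false
set_option linter.unusedSectionVars false

namespace Pool.Agent.Helper86.FS

open Equiv Pool.Agent.Helper3.AK

variable {n k b m M : ℕ}

theorem dact_one (ω : Om n b m) : dact 1 ω = ω := rfl

theorem dact_mul (g h : Perm (Fin n)) (ω : Om n b m) :
    dact (g * h) ω = dact g (dact h ω) := rfl

theorem dact_fst (w : Perm (Fin n)) (ω : Om n b m) (i : Fin m) (a : Fin b) :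
    (dact w ω).1 i a = w (ω.1 i a) := rfl

theorem dact_snd (w : Perm (Fin n)) (ω : Om n b m) (i : Fin m) (a : Fin b) :
    (dact w ω).2 i a = w (ω.2 i a) := rfl

theorem mv_fst (y τ : Perm (Fin n)) (ω : Om n b m) (i : Fin m) (a : Fin b) :
    (mv y τ ω).1 i a = y (ω.1 i a) := rfl

theorem mv_snd (y τ : Perm (Fin n)) (ω : Om n b m) (i : Fin m) (a : Fin b) :
    (mv y τ ω).2 i a = τ (y (ω.2 i a)) := rfl

theorem tok_eq_some (x' : Fin b ↪ Fin n) (P : Fin n) (a' : Fin b) :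
    tok x' P = some a' ↔ x' a' = P := by
  classical
  unfold tok
  by_cases h : ∃ a', x' a' = P
  · rw [dif_pos h]
    constructor
    · intro h1
      rw [← Option.some_inj.1 h1]
      exact h.choose_spec
    · intro h1
      rw [Option.some_inj]
      exact x'.injective (h.choose_spec.trans h1.symm)
  · rw [dif_neg h]
    constructor
    · intro h1
      exact absurd h1 (by simp)
    · intro h1
      exact absurd ⟨a', h1⟩ h

theorem tok_eq_none (x' : Fin b ↪ Fin n) (P : Fin n) :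
    tok x' P = none ↔ ∀ a', x' a' ≠ P := by
  constructor
  · intro h a' h1
    rw [(tok_eq_some x' P a').2 h1] at h
    exact absurd h (by simp)
  · intro h
    rcases h1 : tok x' P with _ | a'
    · rfl
    · exact absurd ((tok_eq_some x' P a').1 h1) (h a')

theorem tok_trans (w : Perm (Fin n)) (x' : Fin b ↪ Fin n) (P : Fin n) :
    tok (x'.trans w.toEmbedding) P = tok x' (w⁻¹ P) := by
  rcases h1 : tok x' (w⁻¹ P) with _ | a'
  · rw [tok_eq_none] at h1 ⊢
    intro a' h2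
    refine h1 a' ?_
    rw [← h2]
    exact (w.symm_apply_apply (x' a')).symm
  · rw [tok_eq_some] at h1 ⊢
    show w (x' a') = P
    rw [h1]
    exact w.apply_symm_apply P

theorem U_dact (w : Perm (Fin n)) (ω : Om n b m) : U (dact w ω) = U ω := by
  funext e
  unfold U dact
  rw [tok_trans]
  congr 1
  exact w.symm_apply_apply _

theorem Ex_dact (w : Perm (Fin n)) (D : Finset (Ix b m)) (S : Pd b m) (ω : Om n b m) :
    Ex D S (dact w ω) = Ex D S ω := by
  unfold Ex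
  rw [U_dact]

theorem ov_trans (w : Perm (Fin n)) (x x' : Fin b ↪ Fin n) :
    ov (x.trans w.toEmbedding) (x'.trans w.toEmbedding) = ov x x' := by
  unfold ov
  rw [← Finset.map_map, ← Finset.map_map, ← Finset.map_inter, Finset.card_map]

theorem GG_dact (B : ℝ) (w : Perm (Fin n)) (ω : Om n b m) : GG B (dact w ω) ↔ GG B ω := by
  unfold GG dact
  simp only [ov_trans]

theorem pq_mul (c : Pts n M) (y w : Perm (Fin n)) (j : Fin M) :
    pq c (y * w) j = (w⁻¹ (pq c y j).1, w⁻¹ (pq c y j).2) := by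
  unfold pq
  rw [mul_inv_rev]
  rfl

theorem mem_W0 (D : Finset (Ix b m)) (ω : Om n b m) (p : Fin n × Fin n) :
    p ∈ W0 D ω ↔ ∃ (e : Ix b m) (a' : Fin b), e ∉ D ∧
    ω.1 e.1 e.2.1 = p.1 ∧ ω.2 e.2.2 a' = p.2 ∧ (∀ i a, ω.1 i a = p.1 → i = e.1) ∧
    (∀ i a, ω.2 i a ≠ p.1) ∧ (∀ i a, ω.1 i a ≠ p.2) ∧ (∀ i a, ω.2 i a = p.2 → i = e.2.2) := by
  classical
  unfold W0
  rw [Finset.mem_filter]
  simp only [Finset.mem_univ, true_and]

theorem mem_W2 (D : Finset (Ix b m)) (ω : Om n b m) (p : Fin n × Fin n) :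
    p ∈ W2 D ω ↔ (p.1 ≠ p.2 ∧
    ((∃ i a, ω.1 i a = p.1) ∨ ∃ i a, ω.1 i a = p.2) ∧
    ((∃ i a, ω.2 i a = p.1) ∨ ∃ i a, ω.2 i a = p.2)) ∧ p ∉ W0 D ω := by
  classical
  unfold W2
  rw [Finset.mem_sdiff, Finset.mem_filter]
  simp only [Finset.mem_univ, true_and]

theorem mem_cw (c : Pts n M) (v : Perm (Fin n)) (W : Finset (Fin n × Fin n)) (j : Fin M) :
    j ∈ cw c v W ↔ pq c v j ∈ W := by
  classical
  unfold cw
  rw [Finset.mem_filter]
  simp only [Finset.mem_univ, true_and]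

theorem mem_PR (c : Pts n M) (y τ : Perm (Fin n)) (D : Finset (Ix b m)) (S : Pd b m)
    (ω : Om n b m) (j : Fin M) :
    j ∈ PR c y τ D S ω ↔ pq c y j ∈ W0 D ω ∧ ∃ (e : Ix b m) (a' : Fin b), e ∉ D ∧
    ω.1 e.1 e.2.1 = (pq c y j).1 ∧ ω.2 e.2.2 a' = (pq c y j).2 ∧ a' ∈ S e (U (mv y τ ω)) := by
  classical
  unfold PR
  rw [Finset.mem_filter, mem_cw]

theorem mem_Ex (D : Finset (Ix b m)) (S : Pd b m) (ω : Om n b m) (e : Ix b m) :
    e ∈ Ex D S ω ↔ e ∉ D ∧ ∃ a', U ω e = some a' ∧ a' ∉ S e (U ω) := by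
  classical
  unfold Ex
  rw [Finset.mem_filter]
  simp only [Finset.mem_univ, true_and]

theorem eq_inv_iff (w : Perm (Fin n)) (P Q : Fin n) : w P = Q ↔ P = w⁻¹ Q := by
  constructor
  · intro h
    rw [← h]
    exact (w.symm_apply_apply P).symm
  · intro h
    rw [h]
    exact w.apply_symm_apply Q

theorem mem_W0_dact (D : Finset (Ix b m)) (w : Perm (Fin n)) (ω : Om n b m) (p : Fin n × Fin n) :
    p ∈ W0 D (dact w ω) ↔ (w⁻¹ p.1, w⁻¹ p.2) ∈ W0 D ω := by
  rw [mem_W0, mem_W0]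
  simp only [dact_fst, dact_snd, eq_inv_iff, ne_eq]

theorem mem_W2_dact (D : Finset (Ix b m)) (w : Perm (Fin n)) (ω : Om n b m) (p : Fin n × Fin n) :
    p ∈ W2 D (dact w ω) ↔ (w⁻¹ p.1, w⁻¹ p.2) ∈ W2 D ω := by
  rw [mem_W2, mem_W2, mem_W0_dact]
  simp only [dact_fst, dact_snd, eq_inv_iff, ne_eq, (w⁻¹).injective.eq_iff]

theorem cw_W0_dact (c : Pts n M) (y w : Perm (Fin n)) (D : Finset (Ix b m)) (ω : Om n b m) :
    cw c y (W0 D (dact w ω)) = cw c (y * w) (W0 D ω) := by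
  ext j
  rw [mem_cw, mem_cw, mem_W0_dact, pq_mul]

theorem cw_W2_dact (c : Pts n M) (y w : Perm (Fin n)) (D : Finset (Ix b m)) (ω : Om n b m) :
    cw c y (W2 D (dact w ω)) = cw c (y * w) (W2 D ω) := by
  ext j
  rw [mem_cw, mem_cw, mem_W2_dact, pq_mul]

theorem W0_ne (D : Finset (Ix b m)) (ω : Om n b m) : ∀ p ∈ W0 D ω, p.1 ≠ p.2 := by
  intro p hp h
  rw [mem_W0] at hp
  obtain ⟨e, a', -, h1, -, -, -, h2, -⟩ := hp
  exact h2 e.1 e.2.1 (h1.trans h)

theorem W2_ne (D : Finset (Ix b m)) (ω : Om n b m) : ∀ p ∈ W2 D ω, p.1 ≠ p.2 := by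
  intro p hp
  rw [mem_W2] at hp
  exact hp.1.1

theorem mv_bij (y τ : Perm (Fin n)) : Function.Bijective (mv y τ : Om n b m → Om n b m) := by
  rw [Fintype.bijective_iff_injective_and_card]
  refine ⟨?_, rfl⟩
  intro ω ω' h
  have h1 : ∀ i a, ω.1 i a = ω'.1 i a := by
    intro i a
    have := congrArg (fun v : Om n b m => v.1 i a) h
    exact y.injective this
  have h2 : ∀ i a, ω.2 i a = ω'.2 i a := by
    intro i a
    have := congrArg (fun v : Om n b m => v.2 i a) h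
    exact (τ * y).injective this
  refine Prod.ext ?_ ?_
  · funext i
    exact DFunLike.ext _ _ (h1 i)
  · funext i
    exact DFunLike.ext _ _ (h2 i)

end Pool.Agent.Helper86.FS
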