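import Pool.Agent.Helper86.FS.StartGoals

/-! Project FS (MP_75608d_al), part START: the sup form. -/

set_option linter.unusedVariables false

namespace Pool.Agent.Helper86.FS

open Equiv Pool.Agent.Helper3.AK

/-- **TRU** (truncation).
Proof. `S = ∑ f > 0`, `θ = 1/(4 S)`, `u = max (f - θ) 0`.  `∑ u² ≥ ∑ (f² - 2 θ f) = 1/2`; `u x ≠ 0` implies
`f x > θ`, so the support has at most `S/θ = 4 S²` elements.  `|u x - u y| ≤ |f x - f y|`, so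
`∑ (u(w·) - u)² ≤ ∑ (f(w·) - f)² = 2 - 2 ip f (Act w f) ≤ 2 g`; `h = u/|u|`:
`2 - 2 ip h (Act w h) = ∑ (h(w·) - h)² ≤ 2 g/(1/2) = 4 g`. -/
def TRUStmt : Prop := ∀ (n b : ℕ) (f : Fn n b), (∀ x, 0 ≤ f x) → ip f f = 1 →
  ∃ h : Fn n b, (∀ x, 0 ≤ h x) ∧ ip h h = 1 ∧
    (Nat.card {x : Fin b ↪ Fin n // h x ≠ 0} : ℝ) ≤ 4 * (∑ x, f x) ^ 2 ∧
    ∀ (w : Perm (Fin n)) (g : ℝ), 1 - g ≤ ip f (Act w f) → 1 - 2 * g ≤ ip h (Act w h)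

/-- **SUP** (return probabilities).  May assume TRUStmt and S_LZ (proved in project AK).
Proof. `L = Lz x` on `Fn n b` is symmetric, `0 ≤ L ≤ 1`; `p_j = pT (lazyLaw x (2 j)) a a =
ip δ_a (L^(2j) δ_a) = |L^j δ_a|²` (S_LZ), `p_0 = 1`, and `p_(j+1)² ≤ p_j p_(j+2)` (Cauchy).  Suppose
`p_t > exp (-H/2)`.  `t ≥ 1`.  The ratios `p_(j+1)/p_j` increase and their product is `p_t`, so
`p_t/p_(t-1) ≥ p_t^(1/t) ≥ 1 - H/(2t)`.  `f = L^(t-1) δ_a/√p_(t-1) ≥ 0` is a unit vector,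
`ip f (L f) ≥ ip f (L² f) = p_t/p_(t-1) ≥ 1 - H/(2t)`, so `ip f (Wk x f) ≥ 1 - H/t` and each
`ip f (Act (x i) f) ≥ 1 - K H/t` (the terms of `x i` and its inverse are equal, all terms are `≤ 1`).
`∑ f = 1/√p_(t-1)`, `(∑ f)² ≤ exp (H/2)`.  TRU: unit `h` with `ip h (Act (x i) h) ≥ 1 - 2 K H/t ≥ 1 - g`
and `|supp h| ≤ 4 exp (H/2) ≤ exp H` (as `H ≥ 4`).  Contradiction. -/
def SUPStmt : Prop := ∀ (n K b : ℕ) (x : Fin K → Alt n) (g H : ℝ), 0 < K → 0 < g → 4 ≤ H →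
  (∀ f : Fn n b, ip f f = 1 → (∀ i, 1 - g ≤ ip f (Act (x i : Perm (Fin n)) f)) →
    Real.exp H < (Nat.card {x : Fin b ↪ Fin n // f x ≠ 0} : ℝ)) →
  ∀ (a : Fin b ↪ Fin n) (t : ℕ), 2 * K * H / g ≤ t →
    pT (lazyLaw x (2 * t)) a a ≤ Real.exp (-(H / 2))

/-- **START in sup form** (assembled by helper86): for almost every `y` all return probabilities of
the walk of `(z, y)` on `b`-tuples at times `≥ C₁ (b²/n) log n` are at most `exp (-K (b²/n) log n)`. -/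
def SUPSTARTStmt : Prop := ∀ (k : ℕ) (ε K : ℝ), 0 < k → 0 < ε → ε ≤ 1 → 0 < K →
  ∃ (C₁ C : ℝ) (N : ℕ), 0 < C₁ ∧ 0 < C ∧ ∀ n ≥ N, ∀ z : Fin k → Alt n,
  (∀ r : ℕ, (r : ℝ) ≤ (n : ℝ) ^ (1 / 2 : ℝ) → TupleGap z r ε) →
  ∀ b : ℕ, (n : ℝ) ^ (31 / 32 : ℝ) ≤ b → (b : ℝ) ≤ n / C →
  (Nat.card {y : Alt n // ¬ ∀ (a : Fin b ↪ Fin n) (t : ℕ),
      C₁ * ((b : ℝ) ^ 2 / n) * Real.log n ≤ t →
      pT (lazyLaw (Fin.snoc z y : Fin (k + 1) → Alt n) (2 * t)) a a ≤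
        Real.exp (-(K * ((b : ℝ) ^ 2 / n) * Real.log n))} : ℝ) ≤
    (n : ℝ) ^ (-(1 / 2) : ℝ) * Nat.card (Alt n)

end Pool.Agent.Helper86.FS
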