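import Pool.Agent.Helper86.FS.Pair
import Pool.Agent.Helper86.FS.StartGoals2
import Pool.Agent.Helper50.FS.StartLT
import Pool.Agent.Helper94.FS.QU
import Pool.Agent.Helper15.FS.WI
import Pool.Agent.Helper17.FS.CH1
import Pool.Agent.Helper75.FS.CH2
import Pool.Agent.Helper30.FS.W0C
import Pool.Agent.Helper51.FS.W2C
import Pool.Agent.Helper33.FS.DET
import Pool.Agent.Helper76.FS.E1A
import Pool.Agent.Helper88.FS.E1B
import Pool.Agent.Helper49.FS.E1N
import Pool.Agent.Helper77.FS.UB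
import Pool.Agent.Helper81.FS.FFL
import Pool.Agent.Helper39.FS.FAM
import Pool.Agent.Helper4.FS.TRU
import Pool.Agent.Helper16.FS.SUP

/-! Project FS (MP_75608d_al), part START: the theorem. -/

set_option linter.unusedVariables false
set_option linter.unusedSectionVars false

namespace Pool.Agent.Helper86.FS

open Equiv Filter Pool.Agent.Helper3.AK

theorem packets : Packets where
  LT := Pool.Agent.Helper50.FS.lt
  QU := Pool.Agent.Helper94.FS.qu
  WI := Pool.Agent.Helper15.FS.wi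
  CH1 := Pool.Agent.Helper17.FS.ch1
  CH2 := Pool.Agent.Helper75.FS.ch2
  W0C := Pool.Agent.Helper30.FS.w0c
  W2C := Pool.Agent.Helper51.FS.w2c
  DET := Pool.Agent.Helper33.FS.det
  E1B := Pool.Agent.Helper88.FS.e1b Pool.Agent.Helper76.FS.e1a
  E1N := Pool.Agent.Helper49.FS.e1n
  UB := Pool.Agent.Helper77.FS.ub
  FFL := Pool.Agent.Helper81.FS.ffl
  PRED := Pool.Agent.Helper50.FS.pred

/-- expurgation -/
theorem expu {A : Type} [Group A] [Fintype A] (B : A → Prop) (F : ℕ) (τ : Fin F → A)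
    (h : ∀ y, ∀ i i', i ≠ i' → ¬ (B (τ i * y) ∧ B (τ i' * y))) :
    (F : ℝ) * Nat.card {y // B y} ≤ Nat.card A := by
  classical
  have h1 : ∑ y : A, ∑ i : Fin F, (if B (τ i * y) then (1 : ℝ) else 0) =
      F * Nat.card {y // B y} := by
    rw [Finset.sum_comm]
    have h2 : ∀ i : Fin F, ∑ y : A, (if B (τ i * y) then (1 : ℝ) else 0) =
        Nat.card {y // B y} := by
      intro i
      have h3 : ∑ y : A, (if B (τ i * y) then (1 : ℝ) else 0) =
          ∑ y : A, (if B y then (1 : ℝ) else 0) :=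
        Equiv.sum_comp (Equiv.mulLeft (τ i)) (fun y => if B y then (1 : ℝ) else 0)
      rw [h3, Finset.sum_boole, Nat.card_eq_fintype_card, Fintype.card_subtype]
    rw [Finset.sum_congr rfl fun i _ => h2 i, Finset.sum_const, Finset.card_univ,
      Fintype.card_fin, nsmul_eq_mul]
  rw [← h1, Nat.card_eq_fintype_card, ← Finset.card_univ, Finset.cast_card]
  refine Finset.sum_le_sum fun y _ => ?_
  rw [Finset.sum_boole]
  have : (Finset.univ.filter fun i : Fin F => B (τ i * y)).card ≤ 1 := by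
    rw [Finset.card_le_one]
    intro i hi i' hi'
    by_contra hne
    exact h y i i' hne ⟨(Finset.mem_filter.1 hi).2, (Finset.mem_filter.1 hi').2⟩
  exact_mod_cast this

theorem nums2 : ∃ N : ℕ, ∀ n ≥ N, 1 ≤ n ∧ ∃ q : ℕ, 0 < q ∧
    (n : ℝ) ^ (1 / 5 : ℝ) ≤ ((2 * (2 * q) : ℕ) : ℝ) ∧
    ((2 * (2 * q) : ℕ) : ℝ) ≤ (n : ℝ) ^ (1 / 4 : ℝ) ∧
    (n : ℝ) ^ (1 / 2 : ℝ) ≤ ((n / (2 * (2 * q)) : ℕ) : ℝ) := by
  have hpow : ∀ p : ℝ, 0 < p → Tendsto (fun n : ℕ => (n : ℝ) ^ p) atTop atTop := fun p hp =>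
    (tendsto_rpow_atTop hp).comp tendsto_natCast_atTop_atTop
  have h1 := ((hpow (1 / 20) (by norm_num)).eventually_ge_atTop 5).and
    ((eventually_ge_atTop (1 : ℕ)))
  obtain ⟨N, hN⟩ := eventually_atTop.1 h1
  refine ⟨N, fun n hn => ?_⟩
  obtain ⟨e1, e2⟩ := hN n hn
  have n1 : (1 : ℝ) ≤ n := by exact_mod_cast e2
  have n0 : (0 : ℝ) < n := by linarith
  have h5 : (1 : ℝ) ≤ (n : ℝ) ^ (1 / 5 : ℝ) := Real.one_le_rpow n1 (by norm_num)
  have h4 : (n : ℝ) ^ (1 / 4 : ℝ) = (n : ℝ) ^ (1 / 20 : ℝ) * (n : ℝ) ^ (1 / 5 : ℝ) := by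
    rw [← Real.rpow_add n0]; norm_num
  have h45 : (n : ℝ) ^ (1 / 5 : ℝ) + 4 ≤ (n : ℝ) ^ (1 / 4 : ℝ) := by
    rw [h4]; nlinarith
  set q : ℕ := ⌊(n : ℝ) ^ (1 / 4 : ℝ) / 4⌋₊ with hq
  have hq1 : (q : ℝ) ≤ (n : ℝ) ^ (1 / 4 : ℝ) / 4 := Nat.floor_le (by positivity)
  have hq2 : (n : ℝ) ^ (1 / 4 : ℝ) / 4 < q + 1 := Nat.lt_floor_add_one _
  have hq0 : 0 < q := by
    rw [hq, Nat.floor_pos]
    linarith
  refine ⟨e2, q, hq0, ?_, ?_, ?_⟩
  · push_cast; linarith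
  · push_cast; linarith
  · have h6 : (n : ℝ) / ((2 * (2 * q) : ℕ) : ℝ) < ((n / (2 * (2 * q)) : ℕ) : ℝ) + 1 := by
      rw [div_lt_iff₀ (by positivity)]
      have := Nat.lt_div_mul_add (a := n) (b := 2 * (2 * q)) (by omega)
      have h7 : (n : ℝ) < ((n / (2 * (2 * q)) * (2 * (2 * q)) + 2 * (2 * q) : ℕ) : ℝ) := by
        exact_mod_cast this
      refine h7.trans_le (le_of_eq ?_)
      push_cast
      ring
    have h8 : (n : ℝ) ^ (3 / 4 : ℝ) ≤ (n : ℝ) / ((2 * (2 * q) : ℕ) : ℝ) := by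
      rw [le_div_iff₀ (by positivity)]
      have h9 : ((2 * (2 * q) : ℕ) : ℝ) ≤ (n : ℝ) ^ (1 / 4 : ℝ) := by push_cast; linarith
      calc (n : ℝ) ^ (3 / 4 : ℝ) * ((2 * (2 * q) : ℕ) : ℝ) ≤
            (n : ℝ) ^ (3 / 4 : ℝ) * (n : ℝ) ^ (1 / 4 : ℝ) :=
            mul_le_mul_of_nonneg_left h9 (by positivity)
        _ = n := by
            rw [← Real.rpow_add n0]
            norm_num
    have h10 : (n : ℝ) ^ (1 / 2 : ℝ) + 1 ≤ (n : ℝ) ^ (3 / 4 : ℝ) := by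
      have e : (n : ℝ) ^ (3 / 4 : ℝ) = (n : ℝ) ^ (1 / 20 : ℝ) * (n : ℝ) ^ (7 / 10 : ℝ) := by
        rw [← Real.rpow_add n0]; norm_num
      have e3 : (n : ℝ) ^ (1 / 2 : ℝ) ≤ (n : ℝ) ^ (7 / 10 : ℝ) :=
        Real.rpow_le_rpow_of_exponent_le n1 (by norm_num)
      have e4 : (1 : ℝ) ≤ (n : ℝ) ^ (7 / 10 : ℝ) := Real.one_le_rpow n1 (by norm_num)
      rw [e]
      nlinarith
    linarith

theorem start : STARTStmt := by
  intro k ε K hk hε hε1 hK
  obtain ⟨g, C, N, hg, hC, h⟩ := pair packets k ε K hk hε hε1 hK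
  obtain ⟨N2, hN2⟩ := nums2
  refine ⟨g, C, max N N2, hg, hC, fun n hn z hz b hb hb2 => ?_⟩
  obtain ⟨n1, q, hq, hM1, hM2, hF⟩ := hN2 n (le_trans (le_max_right _ _) hn)
  obtain ⟨τ, hτ⟩ := Pool.Agent.Helper39.FS.fam n (2 * q) ⟨q, by ring⟩ (by omega)
  have hx := expu (fun y : Alt n => Bad z y b g K) (n / (2 * (2 * q))) τ (by
    intro y i i' hii ⟨h1, h2⟩
    obtain ⟨c, hc⟩ := hτ i i' hii
    refine h n (le_trans (le_max_left _ _) hn) z hz b hb hb2 (2 * (2 * q)) hM1 hM2 c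
      (τ i * y) (τ i' * (τ i)⁻¹) hc h1 ?_
    have e : τ i' * (τ i)⁻¹ * (τ i * y) = τ i' * y := by group
    rw [e]
    exact h2)
  have n0 : (0 : ℝ) < n := by exact_mod_cast n1
  have hn2 : (0 : ℝ) < (n : ℝ) ^ (1 / 2 : ℝ) := by positivity
  have h3 : (n : ℝ) ^ (1 / 2 : ℝ) * (Nat.card {y : Alt n // Bad z y b g K} : ℝ) ≤
      Nat.card (Alt n) :=
    le_trans (mul_le_mul_of_nonneg_right hF (Nat.cast_nonneg _)) hx
  rw [Real.rpow_neg n0.le, inv_mul_eq_div, le_div_iff₀ hn2, mul_comm]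
  exact h3

theorem nums3 (K : ℝ) (hK : 0 < K) : ∃ N : ℕ, ∀ n ≥ N, ∀ b : ℕ, (n : ℝ) ^ (31 / 32 : ℝ) ≤ b →
    4 ≤ 2 * K * ((b : ℝ) ^ 2 / n) * Real.log n := by
  have hlog : Tendsto (fun n : ℕ => Real.log (n : ℝ)) atTop atTop :=
    Real.tendsto_log_atTop.comp tendsto_natCast_atTop_atTop
  have h1 := (hlog.eventually_ge_atTop (2 / K)).and (eventually_ge_atTop (1 : ℕ))
  obtain ⟨N, hN⟩ := eventually_atTop.1 h1
  refine ⟨N, fun n hn b hb => ?_⟩
  obtain ⟨e1, e2⟩ := hN n hn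
  have n1 : (1 : ℝ) ≤ n := by exact_mod_cast e2
  have n0 : (0 : ℝ) < n := by linarith
  have h2 : (1 : ℝ) ≤ (b : ℝ) ^ 2 / n := by
    rw [le_div_iff₀ n0, one_mul]
    calc (n : ℝ) ≤ ((n : ℝ) ^ (31 / 32 : ℝ)) ^ 2 := by
          rw [← Real.rpow_natCast ((n : ℝ) ^ (31 / 32 : ℝ)) 2, ← Real.rpow_mul n0.le]
          nth_rewrite 1 [← Real.rpow_one (n : ℝ)]
          exact Real.rpow_le_rpow_of_exponent_le n1 (by norm_num)
      _ ≤ (b : ℝ) ^ 2 := pow_le_pow_left₀ (by positivity) hb 2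
  have h3 : 2 ≤ K * Real.log n := by
    rw [div_le_iff₀ hK] at e1
    linarith
  have e : 2 * K * ((b : ℝ) ^ 2 / n) * Real.log n =
      2 * ((b : ℝ) ^ 2 / n) * (K * Real.log n) := by ring
  rw [e]
  nlinarith

theorem supstart : SUPSTARTStmt := by
  intro k ε K hk hε hε1 hK
  obtain ⟨g, C, N, hg, hC, h⟩ := start k ε (2 * K) hk hε hε1 (by linarith)
  obtain ⟨N3, hN3⟩ := nums3 K hK
  refine ⟨4 * (k + 1) * K / g, C, max N N3, by positivity, hC, fun n hn z hz b hb hb2 => ?_⟩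
  refine le_trans ?_ (h n (le_trans (le_max_left _ _) hn) z hz b hb hb2)
  have hfin : Finite {y : Alt n // Bad z y b g (2 * K)} := inferInstance
  have hle : Nat.card {y : Alt n // ¬ ∀ (a : Fin b ↪ Fin n) (t : ℕ),
      4 * (k + 1) * K / g * ((b : ℝ) ^ 2 / n) * Real.log n ≤ t →
      pT (lazyLaw (Fin.snoc z y : Fin (k + 1) → Alt n) (2 * t)) a a ≤
        Real.exp (-(K * ((b : ℝ) ^ 2 / n) * Real.log n))} ≤
      Nat.card {y : Alt n // Bad z y b g (2 * K)} := by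
    refine Nat.card_le_card_of_injective
      (fun y => ⟨y.1, ?_⟩) ?_
    · by_contra hB
      refine y.2 fun a t ht => ?_
      have hH := hN3 n (le_trans (le_max_right _ _) hn) b hb
      have hs := Pool.Agent.Helper16.FS.sup Pool.Agent.Helper4.FS.tru n (k + 1) b
        (Fin.snoc z y.1 : Fin (k + 1) → Alt n) g (2 * K * ((b : ℝ) ^ 2 / n) * Real.log n)
        (Nat.succ_pos k) hg hH (by
          intro f hf hf2
          by_contra hc
          refine hB ⟨f, hf, fun i => ?_, ?_, ?_⟩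
          · have := hf2 (Fin.castSucc i)
            rwa [Fin.snoc_castSucc] at this
          · have := hf2 (Fin.last k)
            rwa [Fin.snoc_last] at this
          · exact not_lt.1 hc) a t (by
          refine le_trans (le_of_eq ?_) ht
          push_cast
          ring)
      refine hs.trans (le_of_eq ?_)
      congr 1
      ring
    · intro y y' hy
      have := congrArg Subtype.val hy
      exact Subtype.ext this
  exact_mod_cast hle

end Pool.Agent.Helper86.FS
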