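import Pool.Agent.Helper86.FS.Pair3

/-! Project FS (MP_75608d_al), part START: the pair theorem. -/

set_option linter.unusedVariables false
set_option linter.unusedSectionVars false

namespace Pool.Agent.Helper86.FS

open Equiv Pool.Agent.Helper3.AK

/-- the packets used in the pair theorem -/
structure Packets : Prop where
  LT : LTStmt
  QU : QUStmt
  WI : WIStmt
  CH1 : CH1Stmt
  CH2 : CH2Stmt
  W0C : W0CStmt
  W2C : W2CStmt
  DET : DETStmt
  E1B : E1BStmt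
  E1N : E1NStmt
  UB : UBStmt
  FFL : FFLStmt
  PRED : PREDStmt

/-- the pointwise inequality and the sum over `ω` -/
theorem combine {Ω : Type} [Fintype Ω] (p : Ω → ℝ) (hp : ∀ ω, 0 ≤ p ω) (h1 : ∑ ω, p ω = 1)
    (T : Ω → Ω) (hT : Function.Bijective T) (η : ℝ) (hη : ∑ ω, |p (T ω) - p ω| ≤ η)
    (A B C D E F Q : Ω → Prop) [DecidablePred A] [DecidablePred B] [DecidablePred C]
    [DecidablePred D] [DecidablePred E] [DecidablePred F] [DecidablePred Q]
    (hcov : ∀ ω, A ω ∨ B ω ∨ C ω ∨ D ω ∨ Q (T ω)) (hQ : ∀ ω, Q ω → E ω ∨ F ω)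
    (a b c d e f : ℝ) (ha : ∑ ω, (if A ω then p ω else 0) ≤ a)
    (hb : ∑ ω, (if B ω then p ω else 0) ≤ b) (hc : ∑ ω, (if C ω then p ω else 0) ≤ c)
    (hd : ∑ ω, (if D ω then p ω else 0) ≤ d) (he : ∑ ω, (if E ω then p ω else 0) ≤ e)
    (hf : ∑ ω, (if F ω then p ω else 0) ≤ f) : 1 ≤ a + b + c + d + e + f + η := by
  have h2 : ∑ ω, (if Q (T ω) then p (T ω) else 0) = ∑ ω, (if Q ω then p ω else 0) :=
    hT.sum_comp (fun ω => if Q ω then p ω else 0)
  have h3 : ∑ ω, (if Q ω then p ω else 0) ≤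
      ∑ ω, (if E ω then p ω else 0) + ∑ ω, (if F ω then p ω else 0) := by
    rw [← Finset.sum_add_distrib]
    refine Finset.sum_le_sum fun ω _ => ?_
    have := hp ω
    by_cases hq : Q ω
    · rcases hQ ω hq with h | h <;> split_ifs <;> linarith
    · split_ifs <;> linarith
  have h4 : ∑ ω, p ω ≤ ∑ ω, (if A ω then p ω else 0) + ∑ ω, (if B ω then p ω else 0) +
      ∑ ω, (if C ω then p ω else 0) + ∑ ω, (if D ω then p ω else 0) +
      ∑ ω, (if Q (T ω) then p (T ω) else 0) + ∑ ω, |p (T ω) - p ω| := by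
    simp only [← Finset.sum_add_distrib]
    refine Finset.sum_le_sum fun ω _ => ?_
    have h5 := hp ω
    have h6 := hp (T ω)
    have h7 := abs_nonneg (p (T ω) - p ω)
    have h8 := neg_abs_le (p (T ω) - p ω)
    rcases hcov ω with h | h | h | h | h <;> simp only [h, if_true] <;> split_ifs <;> linarith
  rw [h1, h2] at h4
  linarith

theorem near_prod (P : Packets) {n k b m : ℕ} (z : Fin k → Alt n) (f0 f1 : Fn n b) (g : ℝ)
    (u0 : ip f0 f0 = 1) (u1 : ip f1 f1 = 1) (hg0 : 0 ≤ g) (hg1 : g ≤ 1)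
    (hmg : 2 * (m : ℝ) * g ≤ 1)
    (h0 : ∀ i, 1 - g ≤ ip f0 (Act (z i : Perm (Fin n)) f0))
    (h1 : ∀ i, 1 - g ≤ ip f1 (Act (z i : Perm (Fin n)) f1)) :
    Near z (dact : Perm (Fin n) → Om n b m → Om n b m) (FF f0 f1) (2 * m * g) := by
  obtain ⟨a1, a2, -, -⟩ := P.FFL n b m f0 f1 g u0 u1 hg0 hg1
  exact ⟨a1, hmg, fun i => a2 _ (h0 i) (h1 i)⟩

theorem near_single {n k b : ℕ} (z : Fin k → Alt n) (f : Fn n b) (g g' : ℝ)
    (u : ip f f = 1) (hg1 : g' ≤ 1) (hgg : g ≤ g')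
    (h0 : ∀ i, 1 - g ≤ ip f (Act (z i : Perm (Fin n)) f)) :
    Near z (fun w (x : Fin b ↪ Fin n) => x.trans w.toEmbedding) f g' := by
  refine ⟨?_, hg1, fun i => ?_⟩
  · rw [← u]
    unfold ip
    exact Finset.sum_congr rfl fun x _ => sq (f x)
  · have := h0 i
    unfold ip at this
    refine le_trans (by linarith) (le_trans this (le_of_eq ?_))
    rfl

set_option maxHeartbeats 4000000 in
theorem pair (P : Packets) : PAIRStmt := by
  classical
  intro k ε K hk hε hε1 hK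
  obtain ⟨m, hm8, hm0⟩ : ∃ m : ℕ, 8000 * K ≤ m ∧ 0 < m :=
    ⟨⌈8000 * K⌉₊ + 1, by push_cast; linarith [Nat.le_ceil (8000 * K)], Nat.succ_pos _⟩
  have m1 : (1 : ℝ) ≤ m := by exact_mod_cast hm0
  set c' : ℝ := ε / 40000 with hc'
  have hc0 : 0 < c' := by positivity
  obtain ⟨i, hi⟩ : ∃ i : ℕ, Real.log (20 * m) / (2 * c') ≤ i :=
    ⟨⌈Real.log (20 * m) / (2 * c')⌉₊, Nat.le_ceil _⟩
  set g : ℝ := 1 / (1600 * (m : ℝ) ^ 3 * (i + 1)) with hg
  have hg0 : 0 < g := by positivity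
  have hmg : (m : ℝ) * g ≤ 1 / 1600 := by
    rw [hg, mul_one_div, div_le_div_iff₀ (by positivity) (by norm_num)]
    have h1 : (1 : ℝ) ≤ (m : ℝ) ^ 2 := one_le_pow₀ m1
    have h2 : (0 : ℝ) ≤ i := Nat.cast_nonneg i
    have h3 : (m : ℝ) ^ 3 = m * (m : ℝ) ^ 2 := by ring
    rw [h3]
    have h4 : (m : ℝ) ≤ m * (m : ℝ) ^ 2 := by nlinarith
    nlinarith [mul_nonneg (by positivity : (0 : ℝ) ≤ m * (m : ℝ) ^ 2) h2]
  have hg1 : g ≤ 1 := by nlinarith
  have hexp : Real.exp (-(c' * (2 * i))) ≤ 1 / (20 * m) := by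
    rw [Real.exp_neg, ← one_div]
    refine one_div_le_one_div_of_le (by positivity) ?_
    rw [← Real.log_le_iff_le_exp (by positivity)]
    rw [div_le_iff₀ (by positivity)] at hi
    linarith
  have hsq : Real.sqrt (2 * i * (2 * m * g)) ≤ 1 / (20 * m) := by
    refine Real.sqrt_le_iff.2 ⟨by positivity, ?_⟩
    rw [hg, div_pow, one_pow, mul_one_div, mul_div_assoc', div_le_div_iff₀ (by positivity)
      (by positivity)]
    have h2 : (0 : ℝ) ≤ i := Nat.cast_nonneg i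
    have h3 : (0 : ℝ) ≤ (m : ℝ) ^ 3 := by positivity
    nlinarith [mul_nonneg h3 h2]
  have hδ : (Real.sqrt (2 * i * (2 * m * g)) + Real.exp (-(c' * (2 * i)))) ^ 2 ≤
      1 / (100 * (m : ℝ) ^ 2) := by
    have h1 : Real.sqrt (2 * i * (2 * m * g)) + Real.exp (-(c' * (2 * i))) ≤ 1 / (10 * m) := by
      have : (1 : ℝ) / (10 * m) = 1 / (20 * m) + 1 / (20 * m) := by
        field_simp
        norm_num
      linarith
    calc (Real.sqrt (2 * i * (2 * m * g)) + Real.exp (-(c' * (2 * i)))) ^ 2 ≤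
          (1 / (10 * m)) ^ 2 := pow_le_pow_left₀ (by positivity) h1 2
      _ = 1 / (100 * (m : ℝ) ^ 2) := by
        rw [div_pow]
        ring
  obtain ⟨N1, hN1⟩ := nums m i hm0
  obtain ⟨N2, hN2⟩ := P.E1N m hm0
  refine ⟨g, 256 * m, max N1 N2, hg0, by positivity, ?_⟩
  intro n hn z hz b hb hb2 M hM hM2 c y τ hτ hB0 hB1
  obtain ⟨n100, hb4, hl, hil, h40, hμ100, hμ8, hμ4, hM8, hbn⟩ :=
    hN1 n (le_trans (le_max_left _ _) hn) b M hb hb2 hM hM2
  have n0 : (0 : ℝ) < n := by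
    have : (100 : ℝ) ≤ n := by exact_mod_cast n100
    linarith
  have n1 : (1 : ℝ) ≤ n := by
    have : (100 : ℝ) ≤ n := by exact_mod_cast n100
    linarith
  obtain ⟨f0, u0, z0, y0, s0⟩ := hB0
  obtain ⟨f1, u1, z1, y1, s1⟩ := hB1
  set μ : ℝ := (M : ℝ) * m ^ 2 * b ^ 2 / (n : ℝ) ^ 2 with hμ
  obtain ⟨p1, p2, p3, p4⟩ := P.FFL n b m f0 f1 g u0 u1 hg0.le hg1
  -- the law
  set p : Om n b m → ℝ := fun ω => FF f0 f1 ω ^ 2 with hp
  have hplaw : IsLaw p := ⟨fun ω => sq_nonneg _, p1⟩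
  have hbn' : b ≤ n := by
    have h1 : (b : ℝ) ≤ n := hb2.trans (div_le_self n0.le (by linarith))
    exact_mod_cast h1
  -- the predictor
  have hsn : 1 < Real.sqrt n := by
    rw [Real.lt_sqrt (by norm_num)]
    have : (100 : ℝ) ≤ n := by exact_mod_cast n100
    linarith
  obtain ⟨D, S, hD, hL, hS, hEx⟩ := P.PRED b m (Om n b m) p hplaw hm0 (by omega) U
    (2 * m * (K * ((b : ℝ) ^ 2 / n) * Real.log n)) (Real.sqrt n) (by
      refine le_trans (le_of_eq ?_) (p4 _ s0 s1)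
      congr 1
      refine Nat.card_congr (Equiv.subtypeEquivRight fun ω => ?_)
      simp only [hp, ne_eq, pow_eq_zero_iff, OfNat.ofNat_ne_zero, not_false_eq_true]) hsn
  have hlogs : Real.log (Real.sqrt n) = Real.log n / 2 := Real.log_sqrt n0.le
  have hEx1 : ∑ ω, p ω * ((Ex D S ω).card : ℝ) ≤ 4 * m * K * ((b : ℝ) ^ 2 / n) := by
    refine (hEx (fun ω => Ex D S ω) fun ω e he => (mem_Ex D S ω e).1 he).trans (le_of_eq ?_)
    rw [hlogs]
    have : Real.log n ≠ 0 := by linarith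
    field_simp
    ring
  -- short words
  set js : ℕ := ⌈10 / ε * Real.log n⌉₊ with hjs
  have hjs1 : 10 / ε * Real.log n ≤ js := Nat.le_ceil _
  have hten : (10 : ℝ) ≤ 10 / ε := by
    rw [le_div_iff₀ hε]; linarith
  have hjs2 : 10 * Real.log n ≤ js := by
    refine le_trans ?_ hjs1
    exact mul_le_mul_of_nonneg_right hten (by linarith)
  have hijs : 2 * i ≤ js := by
    have : (2 * i : ℝ) ≤ js := by linarith
    exact_mod_cast this
  have hgap4 : ∀ r ≤ 4, TupleGap z r ε := by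
    intro r hr
    refine hz r ?_
    have h1 : (r : ℝ) ≤ 4 := by exact_mod_cast hr
    refine h1.trans ?_
    rw [← Real.sqrt_eq_rpow]
    refine Real.le_sqrt_of_sq_le ?_
    have : (100 : ℝ) ≤ n := by exact_mod_cast n100
    norm_num
    linarith
  have hQu : Qu (lazyLaw z (2 * js)) := by
    refine P.QU n k z ε (2 * js) hk (by omega) hε hε1 hgap4 ?_
    push_cast
    have : 20 / ε * Real.log n = 2 * (10 / ε * Real.log n) := by ring
    rw [this]
    linarith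
  have hr400 : ∀ X : ℝ, (n : ℝ) ^ (1 / 8 : ℝ) ≤ X → 400 / X ≤ Real.exp (-(c' * (2 * js))) :=
    fun X hX => short_le n ε X c' js hε hε1 rfl rfl hl (by omega) hX h40
  have hr400' : ∀ X : ℝ, (n : ℝ) ^ (1 / 8 : ℝ) ≤ X → ∀ q : ℝ, q ≤ 400 →
      q / X ≤ Real.exp (-(c' * (2 * js))) := by
    intro X hX q hq
    have hX0 : 0 < X := lt_of_lt_of_le (by positivity) hX
    exact le_trans (div_le_div_of_nonneg_right hq hX0.le) (hr400 X hX)
  -- long words
  set t : ℕ := ⌊μ / 40⌋₊ with ht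
  set t2 : ℕ := ⌊40 * μ⌋₊ with ht2
  have ht' : (t : ℝ) ≤ μ / 40 := Nat.floor_le (by linarith)
  have ht2' : (t2 : ℝ) ≤ 40 * μ := Nat.floor_le (by linarith)
  have hR : ((2 * (t + t2) : ℕ) : ℝ) ≤ 81 * μ := by push_cast; linarith
  have hn4 : (n : ℝ) ^ (1 / 4 : ℝ) ≤ n := by
    nth_rewrite 2 [← Real.rpow_one (n : ℝ)]
    exact Real.rpow_le_rpow_of_exponent_le n1 (by norm_num)
  have hn42 : (n : ℝ) ^ (1 / 4 : ℝ) ≤ (n : ℝ) ^ (1 / 2 : ℝ) :=
    Real.rpow_le_rpow_of_exponent_le n1 (by norm_num)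
  have hn40 : (0 : ℝ) < (n : ℝ) ^ (1 / 4 : ℝ) := by positivity
  set jl : ℕ := ⌈((2 * (t + t2) : ℕ) : ℝ) / ε * Real.log n⌉₊ with hjl
  have hjl1 : ((2 * (t + t2) : ℕ) : ℝ) / ε * Real.log n ≤ jl := Nat.le_ceil _
  have ht21 : 1 ≤ t2 := by
    rw [ht2]
    apply Nat.le_floor
    push_cast
    linarith
  have hijl : 2 * i ≤ jl := by
    have h1 : (2 : ℝ) ≤ ((2 * (t + t2) : ℕ) : ℝ) := by
      exact_mod_cast (by omega : 2 ≤ 2 * (t + t2))
    have h2 : (2 : ℝ) ≤ ((2 * (t + t2) : ℕ) : ℝ) / ε := by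
      rw [le_div_iff₀ hε]
      nlinarith
    have h3 : 2 * Real.log n ≤ ((2 * (t + t2) : ℕ) : ℝ) / ε * Real.log n :=
      mul_le_mul_of_nonneg_right h2 (by linarith)
    have : (2 * i : ℝ) ≤ jl := by linarith
    exact_mod_cast this
  have hWise : Wise (lazyLaw z (2 * jl)) (2 * (t + t2)) := by
    refine P.WI n k (2 * (t + t2)) z ε (2 * jl) hk (by omega) ?_ hε hε1 ?_ ?_
    · have : ((2 * (t + t2) : ℕ) : ℝ) ≤ n := by linarith
      exact_mod_cast this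
    · intro r hr
      refine hz r ?_
      have h1 : (r : ℝ) ≤ ((2 * (t + t2) : ℕ) : ℝ) := by exact_mod_cast hr
      linarith
    · have e : 2 * ((2 * (t + t2) : ℕ) : ℝ) / ε * Real.log n =
          2 * (((2 * (t + t2) : ℕ) : ℝ) / ε * Real.log n) := by ring
      rw [e, Nat.cast_mul 2 jl]
      push_cast at hjl1 ⊢
      linarith
  have ht4 : 4 * (t + t2) ≤ n := by
    have : ((4 * (t + t2) : ℕ) : ℝ) ≤ n := by
      push_cast at hR ⊢
      linarith
    exact_mod_cast this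
  have hlong := long_le n (2 * (t + t2)) ε μ c' jl hε hε1 rfl rfl hl hμ100 hR
  have hE1N := hN2 n (le_trans (le_max_right _ _) hn) b M t hbn' hb hM hM2 rfl
  -- near invariance
  have h2mg : 2 * (m : ℝ) * g ≤ 1 := by linarith
  have hNear : Near z (dact : Perm (Fin n) → Om n b m → Om n b m) (FF f0 f1) (2 * m * g) :=
    near_prod P z f0 f1 g u0 u1 hg0.le hg1 h2mg z0 z1
  have hgg : g ≤ 2 * m * g := by nlinarith
  have hN0 := near_single z f0 g (2 * m * g) u0 h2mg hgg z0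
  have hN1' := near_single z f1 g (2 * m * g) u1 h2mg hgg z1
  -- (U)
  have hb1 : (1 : ℝ) ≤ (b : ℝ) ^ 2 / n := by
    refine le_trans ?_ hbn
    exact Real.one_le_rpow n1 (by norm_num)
  have hU : ∀ f : Fn n b, Near z (fun w (x : Fin b ↪ Fin n) => x.trans w.toEmbedding) f
      (2 * m * g) → ∀ R : Finset (Fin n), R.card = b → ∀ E : Finset (Fin b ↪ Fin n),
      (∀ x ∈ E, 8 * ((b : ℝ) ^ 2 / n) < (((Finset.univ.map x) ∩ R).card : ℝ)) →
      ∑ x ∈ E, f x ^ 2 ≤ 1 / (100 * (m : ℝ) ^ 2) := fun f hf R hR' E hE =>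
    massU P.LT P.CH1 z hk f (2 * m * g) hf c' _ i js hijs hδ (by omega) hQu hb1
      (hr400' _ hbn 1 (by norm_num)) R hR' E hE
  have hA : ∑ ω : Om n b m, (if ¬ GG (8 * ((b : ℝ) ^ 2 / n)) ω then p ω else 0) ≤ 3 / 100 := by
    rw [← Finset.sum_filter]
    refine (P.UB n b m f0 f1 (8 * ((b : ℝ) ^ 2 / n)) (1 / (100 * (m : ℝ) ^ 2)) u0 u1
      (hU f0 hN0) (hU f1 hN1') _ (fun ω hω => (Finset.mem_filter.1 hω).2)).trans (le_of_eq ?_)
    field_simp
  -- the other events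
  have hδ1 : 1 / (100 * (m : ℝ) ^ 2) ≤ 1 / 100 := by
    refine one_div_le_one_div_of_le (by norm_num) ?_
    have : (1 : ℝ) ≤ (m : ℝ) ^ 2 := one_le_pow₀ m1
    linarith
  have hB := massT0 P.LT P.CH2 z hk (FF f0 f1) (2 * m * g) hNear c' _ i js hijs hδ (by omega) hM8
    hQu c (y : Perm (Fin n)) D (8 * ((b : ℝ) ^ 2 / n)) μ (by linarith)
    (fun ω hG => W0_num P.W0C hm0 hb4 (by omega) hb2 M D hD ω hG)
    (hr400' _ hμ8 25 (by norm_num))
  have hC := massEff P.LT P.CH2 z hk (FF f0 f1) (2 * m * g) hNear c' _ i js hijs hδ n100 hM8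
    hQu c (y : Perm (Fin n)) D (8 * ((b : ℝ) ^ 2 / n)) μ (by linarith)
    (fun ω hG => by
      have h1 := W2_num P.W2C (by omega) D ω hG
      have h2 : (M : ℝ) * (W2 D ω).card / (n : ℝ) ^ 2 ≤
          (M : ℝ) * (18 * (m : ℝ) ^ 2 * b ^ 2) / (n : ℝ) ^ 2 :=
        div_le_div_of_nonneg_right (mul_le_mul_of_nonneg_left h1 (Nat.cast_nonneg _))
          (by positivity)
      refine h2.trans (le_of_eq ?_)
      rw [hμ]
      ring)
    (hr400' _ hμ8 25 (by norm_num))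
  have hDD := massB P.LT P.E1B z hk (FF f0 f1) (2 * m * g) hNear c' _ i jl hijl hδ t t2 hWise ht4
    c (y : Perm (Fin n)) (τ : Perm (Fin n)) hτ D S hL (8 * ((b : ℝ) ^ 2 / n))
    (18 * (m : ℝ) ^ 2 * b ^ 2) (Real.sqrt n) (by positivity) hS
    (fun ω hG => W2_num P.W2C (by omega) D ω hG) (hE1N.trans hlong)
  set x : ℝ := (m : ℝ) ^ 2 * b ^ 2 / (100 * n) with hx
  have hx0 : 0 < x := by
    rw [hx]
    have : (4 : ℝ) ≤ b := by exact_mod_cast hb4
    positivity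
  have hF := massEx P.LT P.CH1 z hk (FF f0 f1) (2 * m * g) hNear c' _ i js hijs hδ (by omega)
    hQu c D S x μ hμ100 (le_of_eq (by
      rw [hx, hμ]
      field_simp))
    (hr400 _ hμ8)
  have hE : ∑ ω : Om n b m, (if x < ((Ex D S ω).card : ℝ) then p ω else 0) ≤ 1 / 20 := by
    have h1 : x * ∑ ω : Om n b m, (if x < ((Ex D S ω).card : ℝ) then p ω else 0) ≤
        4 * m * K * ((b : ℝ) ^ 2 / n) := by
      refine le_trans ?_ hEx1
      rw [Finset.mul_sum]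
      refine Finset.sum_le_sum fun ω _ => ?_
      split_ifs with h
      · rw [mul_comm]
        exact mul_le_mul_of_nonneg_left h.le (sq_nonneg _)
      · rw [mul_zero]
        exact mul_nonneg (sq_nonneg _) (Nat.cast_nonneg _)
    have h2 : 4 * m * K * ((b : ℝ) ^ 2 / n) ≤ x * (1 / 20) := by
      rw [hx]
      have h3 : 4 * (m : ℝ) * K * ((b : ℝ) ^ 2 / n) = (4 * m * K) * ((b : ℝ) ^ 2 / n) := by ring
      have h4 : (m : ℝ) ^ 2 * b ^ 2 / (100 * n) * (1 / 20) =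
          ((m : ℝ) ^ 2 / 2000) * ((b : ℝ) ^ 2 / n) := by
        field_simp
        norm_num
      rw [h3, h4]
      refine mul_le_mul_of_nonneg_right ?_ (by positivity)
      nlinarith
    exact le_of_mul_le_mul_left (h1.trans h2) hx0
  have hη := p3 (y : Perm (Fin n)) (τ : Perm (Fin n)) y0 y1
  have hsq2 : 4 * Real.sqrt (m * g) ≤ 1 / 10 := by
    have : Real.sqrt (m * g) ≤ 1 / 40 := by
      refine Real.sqrt_le_iff.2 ⟨by norm_num, ?_⟩
      refine hmg.trans ?_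
      norm_num
    linarith
  have hfin := combine p (fun ω => sq_nonneg _) p1 (mv (y : Perm (Fin n)) (τ : Perm (Fin n)))
    (mv_bij _ _) _ hη
    (fun ω => ¬ GG (8 * ((b : ℝ) ^ 2 / n)) ω)
    (fun ω => GG (8 * ((b : ℝ) ^ 2 / n)) ω ∧
      ((cw c (y : Perm (Fin n)) (W0 D ω)).card : ℝ) ≤ μ / 20)
    (fun ω => GG (8 * ((b : ℝ) ^ 2 / n)) ω ∧
      40 * μ ≤ ((cw c (y : Perm (Fin n)) (W2 D ω)).card : ℝ))
    (fun ω => GG (8 * ((b : ℝ) ^ 2 / n)) ω ∧
      Bad1 c (y : Perm (Fin n)) (τ : Perm (Fin n)) D S t t2 ω)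
    (fun ω => x < ((Ex D S ω).card : ℝ))
    (fun ω => ((Ex D S ω).card : ℝ) ≤ x ∧ μ / 41 ≤ (NN c D S ω : ℝ))
    (fun ω => μ / 41 ≤ (NN c D S ω : ℝ))
    (by
      intro ω
      by_cases hG : GG (8 * ((b : ℝ) ^ 2 / n)) ω
      swap
      · exact Or.inl hG
      by_cases h2 : ((cw c (y : Perm (Fin n)) (W0 D ω)).card : ℝ) ≤ μ / 20
      · exact Or.inr (Or.inl ⟨hG, h2⟩)
      by_cases h3 : 40 * μ ≤ ((cw c (y : Perm (Fin n)) (W2 D ω)).card : ℝ)
      · exact Or.inr (Or.inr (Or.inl ⟨hG, h3⟩))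
      by_cases h4 : Bad1 c (y : Perm (Fin n)) (τ : Perm (Fin n)) D S t t2 ω
      · exact Or.inr (Or.inr (Or.inr (Or.inl ⟨hG, h4⟩)))
      refine Or.inr (Or.inr (Or.inr (Or.inr ?_)))
      have h5 : (cw c (y : Perm (Fin n)) (W2 D ω)).card ≤ t2 := by
        rw [ht2]
        apply Nat.le_floor
        linarith
      have h6 : (PR c (y : Perm (Fin n)) (τ : Perm (Fin n)) D S ω).card < t := by
        by_contra h
        exact h4 ⟨h5, not_lt.1 h⟩
      have h7 := P.DET n b m M c (y : Perm (Fin n)) (τ : Perm (Fin n)) D S ω hτ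
      have h8 : ((cw c (y : Perm (Fin n)) (W0 D ω)).card : ℝ) ≤
          (NN c D S (mv (y : Perm (Fin n)) (τ : Perm (Fin n)) ω) : ℝ) + t := by
        have : (cw c (y : Perm (Fin n)) (W0 D ω)).card ≤
          NN c D S (mv (y : Perm (Fin n)) (τ : Perm (Fin n)) ω) + t := by omega
        exact_mod_cast this
      show μ / 41 ≤ (NN c D S (mv (y : Perm (Fin n)) (τ : Perm (Fin n)) ω) : ℝ)
      linarith)
    (by
      intro ω h
      by_cases h1 : x < ((Ex D S ω).card : ℝ)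
      · exact Or.inl h1
      · exact Or.inr ⟨not_lt.1 h1, h⟩)
    _ _ _ _ _ _ hA hB hC hDD hE hF
  linarith

end Pool.Agent.Helper86.FS
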