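import Pool.Agent.Helper86.FS.StartGoals
import Pool.Agent.Helper86.FS.StartEqv

/-! Project FS (MP_75608d_al), part START: the events (one-step probabilities). -/

set_option linter.unusedVariables false
set_option linter.unusedSectionVars false

namespace Pool.Agent.Helper86.FS

open Equiv Pool.Agent.Helper3.AK

variable {n k b m M : ℕ}

theorem cheb (κ : Perm (Fin n) → ℝ) (hκ : ∀ g, 0 ≤ κ g) (X : Perm (Fin n) → ℝ)
    (q V d : ℝ) (hd : 0 < d) (hV : ∑ w, κ w * (X w - q) ^ 2 ≤ V) (ev : Perm (Fin n) → Prop)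
    [DecidablePred ev] (hev : ∀ w, ev w → d ≤ |X w - q|) :
    ∑ w, κ w * (if ev w then (1 : ℝ) else 0) ≤ V / d ^ 2 := by
  rw [le_div_iff₀ (by positivity), Finset.sum_mul]
  refine le_trans (Finset.sum_le_sum fun w _ => ?_) hV
  by_cases h : ev w
  · rw [if_pos h, mul_one]
    refine mul_le_mul_of_nonneg_left ?_ (hκ w)
    rw [← sq_abs (X w - q)]
    exact pow_le_pow_left₀ hd.le (hev w h) 2
  · rw [if_neg h, mul_zero, zero_mul]
    exact mul_nonneg (hκ w) (sq_nonneg _)

/-- the special places, pulled back by `y` -/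
def cp (c : Pts n M) (y : Perm (Fin n)) : Pts n M := c.trans (y⁻¹).toEmbedding

theorem cw_cp (c : Pts n M) (y w : Perm (Fin n)) (W : Finset (Fin n × Fin n)) :
    cw c (y * w) W = cw (cp c y) w W := by
  ext j
  rw [mem_cw, mem_cw, pq_mul]
  rfl

/-- clean pairs: the one-step probability of having few of them -/
theorem prT0 (hCH2 : CH2Stmt) (κ : Perm (Fin n) → ℝ) (hn : 8 ≤ n) (hM : 8 * M ≤ n) (hκ : Qu κ)
    (c : Pts n M) (y : Perm (Fin n)) (W : Finset (Fin n × Fin n)) (hW : ∀ p ∈ W, p.1 ≠ p.2)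
    (μ : ℝ) (hμ : 4 ≤ μ) (hWc : μ / 4 ≤ (M : ℝ) * W.card / (n : ℝ) ^ 2)
    (ev : Perm (Fin n) → Prop) [DecidablePred ev]
    (hev : ∀ w, ev w → ((cw c (y * w) W).card : ℝ) ≤ μ / 20) :
    ∑ w, κ w * (if ev w then (1 : ℝ) else 0) ≤ 25 / μ := by
  set q : ℝ := (M : ℝ) * W.card / ((n : ℝ) * ((n : ℝ) - 1)) with hq
  have hn' : (8 : ℝ) ≤ n := by exact_mod_cast hn
  have hq1 : μ / 4 ≤ q := by
    refine hWc.trans ?_
    rw [hq]
    refine div_le_div_of_nonneg_left (by positivity) (by nlinarith) (by nlinarith)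
  have hq0 : 1 ≤ q := by linarith
  have h := cheb κ hκ.nonneg (fun w => ((cw (cp c y) w W).card : ℝ)) q (3 * q + 1) (4 * q / 5)
    (by linarith) (hCH2 n M κ hn hM hκ (cp c y) W hW) ev (by
      intro w hw
      have h1 := hev w hw
      rw [cw_cp] at h1
      rw [abs_sub_comm]
      refine le_trans ?_ (le_abs_self _)
      linarith)
  refine h.trans ?_
  have h2 : (3 * q + 1) / (4 * q / 5) ^ 2 ≤ 25 / 4 / q := by
    rw [div_le_div_iff₀ (by positivity) (by linarith)]
    nlinarith
  refine h2.trans ?_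
  rw [div_div, div_le_div_iff₀ (by linarith) (by linarith)]
  linarith

/-- the one-step probability of having many pairs -/
theorem prEff (hCH2 : CH2Stmt) (κ : Perm (Fin n) → ℝ) (hn : 100 ≤ n) (hM : 8 * M ≤ n) (hκ : Qu κ)
    (c : Pts n M) (y : Perm (Fin n)) (W : Finset (Fin n × Fin n)) (hW : ∀ p ∈ W, p.1 ≠ p.2)
    (μ : ℝ) (hμ : 4 ≤ μ) (hWc : (M : ℝ) * W.card / (n : ℝ) ^ 2 ≤ 18 * μ)
    (ev : Perm (Fin n) → Prop) [DecidablePred ev]
    (hev : ∀ w, ev w → 40 * μ ≤ ((cw c (y * w) W).card : ℝ)) :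
    ∑ w, κ w * (if ev w then (1 : ℝ) else 0) ≤ 25 / μ := by
  set q : ℝ := (M : ℝ) * W.card / ((n : ℝ) * ((n : ℝ) - 1)) with hq
  have hn' : (100 : ℝ) ≤ n := by exact_mod_cast hn
  have hq1 : q ≤ 19 * μ := by
    have e : q = (M : ℝ) * W.card / (n : ℝ) ^ 2 * ((n : ℝ) / ((n : ℝ) - 1)) := by
      rw [hq]
      have h1 : (n : ℝ) ≠ 0 := by linarith
      have h2 : (n : ℝ) - 1 ≠ 0 := by linarith
      field_simp
    have h3 : (n : ℝ) / ((n : ℝ) - 1) ≤ 19 / 18 := by
      rw [div_le_div_iff₀ (by linarith) (by norm_num)]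
      linarith
    rw [e]
    calc (M : ℝ) * W.card / (n : ℝ) ^ 2 * ((n : ℝ) / ((n : ℝ) - 1)) ≤ 18 * μ * (19 / 18) :=
          mul_le_mul hWc h3 (div_nonneg (by linarith) (by linarith)) (by linarith)
      _ = 19 * μ := by ring
  have hq0 : 0 ≤ q := by
    rw [hq]
    exact div_nonneg (by positivity) (mul_nonneg (by linarith) (by linarith))
  have h := cheb κ hκ.nonneg (fun w => ((cw (cp c y) w W).card : ℝ)) q (3 * q + 1) (21 * μ)
    (by linarith) (hCH2 n M κ (by omega) hM hκ (cp c y) W hW) ev (by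
      intro w hw
      have h1 := hev w hw
      rw [cw_cp] at h1
      refine le_trans ?_ (le_abs_self _)
      linarith)
  refine h.trans ?_
  rw [div_le_div_iff₀ (by positivity) (by linarith)]
  nlinarith

/-- the one-step probability that many of few places become special -/
theorem prEx (hCH1 : CH1Stmt) (κ : Perm (Fin n) → ℝ) (hn : 4 ≤ n) (hκ : Qu κ)
    (c : Pts n M) (A : Finset (Fin n)) (μ : ℝ) (hμ : 100 ≤ μ)
    (hA : (A.card : ℝ) * M / n ≤ μ / 100)
    (ev : Perm (Fin n) → Prop) [DecidablePred ev]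
    (X : Perm (Fin n) → ℕ) (hX : ∀ w, X w ≤ (A.filter fun P => ∃ j, w P = c (j, false)).card)
    (hev : ∀ w, ev w → μ / 41 ≤ (X w : ℝ)) :
    ∑ w, κ w * (if ev w then (1 : ℝ) else 0) ≤ 400 / μ := by
  classical
  set B : Finset (Fin n) := Finset.univ.image fun j : Fin M => c (j, false) with hB
  have hBc : B.card = M := by
    rw [hB, Finset.card_image_of_injective, Finset.card_univ, Fintype.card_fin]
    intro i j h
    have := c.injective h
    exact (Prod.mk.inj this).1
  set q : ℝ := (A.card : ℝ) * B.card / n with hq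
  have hq1 : q ≤ μ / 100 := by rw [hq, hBc]; exact hA
  have h := cheb κ hκ.nonneg (fun w => ((A.filter fun P => w P ∈ B).card : ℝ)) q (3 * q + 1)
    (μ / 100) (by linarith) (hCH1 n κ hn hκ A B) ev (by
      intro w hw
      have h1 := hev w hw
      have h2 : (X w : ℝ) ≤ ((A.filter fun P => w P ∈ B).card : ℝ) := by
        exact_mod_cast (hX w).trans (Finset.card_le_card fun P hP => by
          rw [Finset.mem_filter] at hP ⊢
          obtain ⟨h3, j, h4⟩ := hP
          exact ⟨h3, by rw [hB, h4]; exact Finset.mem_image_of_mem _ (Finset.mem_univ j)⟩)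
      refine le_trans ?_ (le_abs_self _)
      show μ / 100 ≤ ((A.filter fun P => w P ∈ B).card : ℝ) - q
      linarith)
  refine h.trans ?_
  rw [div_le_div_iff₀ (by positivity) (by linarith)]
  nlinarith

/-- the one-step probability of a large intersection -/
theorem prU (hCH1 : CH1Stmt) (κ : Perm (Fin n) → ℝ) (hn : 4 ≤ n) (hκ : Qu κ)
    (x : Fin b ↪ Fin n) (R : Finset (Fin n)) (hR : R.card = b) (hb : (1 : ℝ) ≤ (b : ℝ) ^ 2 / n)
    (ev : Perm (Fin n) → Prop) [DecidablePred ev]
    (hev : ∀ w, ev w → 8 * ((b : ℝ) ^ 2 / n) <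
      (((Finset.univ.map (x.trans w.toEmbedding)) ∩ R).card : ℝ)) :
    ∑ w, κ w * (if ev w then (1 : ℝ) else 0) ≤ 1 / ((b : ℝ) ^ 2 / n) := by
  classical
  set q : ℝ := (b : ℝ) ^ 2 / n with hq
  have hc : (Finset.univ.map x).card = b := by
    rw [Finset.card_map, Finset.card_univ, Fintype.card_fin]
  have hq' : ((Finset.univ.map x).card : ℝ) * R.card / n = q := by
    rw [hc, hR, hq]; ring
  have h := cheb κ hκ.nonneg (fun w => (((Finset.univ.map x).filter fun P => w P ∈ R).card : ℝ))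
    (((Finset.univ.map x).card : ℝ) * R.card / n)
    (3 * (((Finset.univ.map x).card : ℝ) * R.card / n) + 1)
    (7 * q) (by linarith) (hCH1 n κ hn hκ _ R) ev (by
      intro w hw
      have h1 := hev w hw
      have h2 : ((Finset.univ.map (x.trans w.toEmbedding)) ∩ R).card ≤
          ((Finset.univ.map x).filter fun P => w P ∈ R).card := by
        rw [← Finset.map_map]
        have : ((Finset.univ.map x).map w.toEmbedding) ∩ R =
            ((Finset.univ.map x).filter fun P => w P ∈ R).map w.toEmbedding := by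
          ext P
          simp only [Finset.mem_inter, Finset.mem_map, Finset.mem_filter, Equiv.coe_toEmbedding]
          constructor
          · rintro ⟨⟨Q, hQ, rfl⟩, h3⟩
            exact ⟨Q, ⟨hQ, h3⟩, rfl⟩
          · rintro ⟨Q, ⟨hQ, h3⟩, rfl⟩
            exact ⟨⟨Q, hQ, rfl⟩, h3⟩
        rw [this, Finset.card_map]
      have h3 : (((Finset.univ.map (x.trans w.toEmbedding)) ∩ R).card : ℝ) ≤
          (((Finset.univ.map x).filter fun P => w P ∈ R).card : ℝ) := by exact_mod_cast h2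
      refine le_trans ?_ (le_abs_self _)
      show 7 * q ≤ (((Finset.univ.map x).filter fun P => w P ∈ R).card : ℝ) -
        ((Finset.univ.map x).card : ℝ) * R.card / n
      rw [hq']
      linarith)
  rw [hq'] at h
  refine h.trans ?_
  rw [div_le_div_iff₀ (by positivity) (by linarith)]
  nlinarith

end Pool.Agent.Helper86.FS
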