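import Pool.Agent.Helper86.FS.Pair1

/-! Project FS (MP_75608d_al), part START: the masses of the events under the law `F²`. -/

set_option linter.unusedVariables false
set_option linter.unusedSectionVars false

namespace Pool.Agent.Helper86.FS

open Equiv Pool.Agent.Helper3.AK

variable {n k b m M : ℕ}

/-- the hypotheses on a function on `Ω`: unit, nearly invariant under `z` -/
structure Near {Ω : Type} [Fintype Ω] (z : Fin k → Alt n) (a : Perm (Fin n) → Ω → Ω)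
    (F : Ω → ℝ) (g : ℝ) : Prop where
  unit : ∑ ω, F ω ^ 2 = 1
  le : g ≤ 1
  near : ∀ i, 1 - g ≤ ∑ ω, F ω * F (a (z i : Perm (Fin n)) ω)

/-- lemma T with a bound for the one-step probabilities, predicates instead of sets -/
theorem massP (hLT : LTStmt) {Ω : Type} [Fintype Ω] [DecidableEq Ω] (z : Fin k → Alt n)
    (hk : 0 < k) (a : Perm (Fin n) → Ω → Ω) (h1 : ∀ ω, a 1 ω = ω)
    (h2 : ∀ g h ω, a (g * h) ω = a g (a h ω)) (F : Ω → ℝ) (g : ℝ) (hF : Near z a F g)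
    (c δ : ℝ) (i j : ℕ) (hij : 2 * i ≤ j)
    (hδ : (Real.sqrt (2 * i * g) + Real.exp (-(c * (2 * i)))) ^ 2 ≤ δ)
    (E : Ω → Prop) [DecidablePred E]
    (hE : ∀ ω, ∑ w, lazyLaw z (2 * j) w * (if E (a w ω) then (1 : ℝ) else 0) ≤
      Real.exp (-(c * (2 * j)))) :
    ∑ ω, (if E ω then F ω ^ 2 else 0) ≤ δ := by
  have h := hLT n k z hk Ω a h1 h2 F hF.unit g hF.le hF.near
    (Finset.univ.filter fun ω => E ω) c i j hij (by
      intro ω
      refine le_trans (le_of_eq ?_) (hE ω)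
      refine Finset.sum_congr rfl fun w _ => ?_
      congr 1
      simp only [Finset.mem_filter, Finset.mem_univ, true_and])
  rw [Finset.sum_filter] at h
  exact h.trans hδ

/-- (T0) few clean special pairs -/
theorem massT0 (hLT : LTStmt) (hCH2 : CH2Stmt) (z : Fin k → Alt n) (hk : 0 < k)
    (F : Om n b m → ℝ) (g : ℝ) (hF : Near z dact F g) (c' δ : ℝ) (i j : ℕ) (hij : 2 * i ≤ j)
    (hδ : (Real.sqrt (2 * i * g) + Real.exp (-(c' * (2 * i)))) ^ 2 ≤ δ)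
    (hn : 8 ≤ n) (hM : 8 * M ≤ n) (hκ : Qu (lazyLaw z (2 * j)))
    (c : Pts n M) (y : Perm (Fin n)) (D : Finset (Ix b m)) (B μ : ℝ) (hμ : 4 ≤ μ)
    (hW : ∀ ω : Om n b m, GG B ω → μ / 4 ≤ (M : ℝ) * (W0 D ω).card / (n : ℝ) ^ 2)
    (hr : 25 / μ ≤ Real.exp (-(c' * (2 * j)))) [DecidablePred fun ω : Om n b m =>
      GG B ω ∧ ((cw c y (W0 D ω)).card : ℝ) ≤ μ / 20] :
    ∑ ω : Om n b m, (if GG B ω ∧ ((cw c y (W0 D ω)).card : ℝ) ≤ μ / 20 then F ω ^ 2 else 0) ≤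
      δ := by
  classical
  refine massP hLT z hk dact dact_one dact_mul F g hF c' δ i j hij hδ
    (fun ω => GG B ω ∧ ((cw c y (W0 D ω)).card : ℝ) ≤ μ / 20) fun ω => ?_
  by_cases hG : GG B ω
  · refine le_trans ?_ hr
    refine prT0 hCH2 (lazyLaw z (2 * j)) hn hM hκ c y (W0 D ω) (W0_ne D ω) μ hμ (hW ω hG)
      (fun w => GG B (dact w ω) ∧ ((cw c y (W0 D (dact w ω))).card : ℝ) ≤ μ / 20) ?_
    intro w hw
    rw [cw_W0_dact] at hw
    exact hw.2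
  · refine le_trans (le_of_eq ?_) (Real.exp_pos _).le
    refine Finset.sum_eq_zero fun w _ => ?_
    rw [if_neg, mul_zero]
    intro h
    exact hG ((GG_dact B w ω).1 h.1)

/-- (Eff) many disturbing special pairs -/
theorem massEff (hLT : LTStmt) (hCH2 : CH2Stmt) (z : Fin k → Alt n) (hk : 0 < k)
    (F : Om n b m → ℝ) (g : ℝ) (hF : Near z dact F g) (c' δ : ℝ) (i j : ℕ) (hij : 2 * i ≤ j)
    (hδ : (Real.sqrt (2 * i * g) + Real.exp (-(c' * (2 * i)))) ^ 2 ≤ δ)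
    (hn : 100 ≤ n) (hM : 8 * M ≤ n) (hκ : Qu (lazyLaw z (2 * j)))
    (c : Pts n M) (y : Perm (Fin n)) (D : Finset (Ix b m)) (B μ : ℝ) (hμ : 4 ≤ μ)
    (hW : ∀ ω : Om n b m, GG B ω → (M : ℝ) * (W2 D ω).card / (n : ℝ) ^ 2 ≤ 18 * μ)
    (hr : 25 / μ ≤ Real.exp (-(c' * (2 * j)))) [DecidablePred fun ω : Om n b m =>
      GG B ω ∧ 40 * μ ≤ ((cw c y (W2 D ω)).card : ℝ)] :
    ∑ ω : Om n b m, (if GG B ω ∧ 40 * μ ≤ ((cw c y (W2 D ω)).card : ℝ) then F ω ^ 2 else 0) ≤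
      δ := by
  classical
  refine massP hLT z hk dact dact_one dact_mul F g hF c' δ i j hij hδ
    (fun ω => GG B ω ∧ 40 * μ ≤ ((cw c y (W2 D ω)).card : ℝ)) fun ω => ?_
  by_cases hG : GG B ω
  · refine le_trans ?_ hr
    refine prEff hCH2 (lazyLaw z (2 * j)) hn hM hκ c y (W2 D ω) (W2_ne D ω) μ hμ (hW ω hG)
      (fun w => GG B (dact w ω) ∧ 40 * μ ≤ ((cw c y (W2 D (dact w ω))).card : ℝ)) ?_
    intro w hw
    rw [cw_W2_dact] at hw
    exact hw.2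
  · refine le_trans (le_of_eq ?_) (Real.exp_pos _).le
    refine Finset.sum_eq_zero fun w _ => ?_
    rw [if_neg, mul_zero]
    intro h
    exact hG ((GG_dact B w ω).1 h.1)

/-- (1) the long range event -/
theorem massB (hLT : LTStmt) (hE1B : E1BStmt) (z : Fin k → Alt n) (hk : 0 < k)
    (F : Om n b m → ℝ) (g : ℝ) (hF : Near z dact F g) (c' δ : ℝ) (i j : ℕ) (hij : 2 * i ≤ j)
    (hδ : (Real.sqrt (2 * i * g) + Real.exp (-(c' * (2 * i)))) ^ 2 ≤ δ)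
    (t t2 : ℕ) (hκ : Wise (lazyLaw z (2 * j)) (2 * (t + t2))) (ht : 4 * (t + t2) ≤ n)
    (c : Pts n M) (y τ : Perm (Fin n)) (hτ : IsTau τ c) (D : Finset (Ix b m)) (S : Pd b m)
    (hL : Loc D S) (B B2 σ : ℝ) (hσ : 0 ≤ σ) (hS : ∀ e v, ((S e v).card : ℝ) ≤ σ)
    (hW : ∀ ω : Om n b m, GG B ω → ((W2 D ω).card : ℝ) ≤ B2)
    (hr : 2 * (Real.exp (4 * M * B2 / (n : ℝ) ^ 2) * ((M.choose t : ℝ) *
      (4 * ((m : ℝ) ^ 2 * b * σ) / (n : ℝ) ^ 2) ^ t)) ≤ Real.exp (-(c' * (2 * j))))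
    [DecidablePred fun ω : Om n b m => GG B ω ∧ Bad1 c y τ D S t t2 ω] :
    ∑ ω : Om n b m, (if GG B ω ∧ Bad1 c y τ D S t t2 ω then F ω ^ 2 else 0) ≤ δ := by
  classical
  refine massP hLT z hk dact dact_one dact_mul F g hF c' δ i j hij hδ
    (fun ω => GG B ω ∧ Bad1 c y τ D S t t2 ω) fun ω => ?_
  by_cases hG : GG B ω
  · refine le_trans ?_ hr
    exact hE1B n b m M t t2 (lazyLaw z (2 * j)) hκ ht c y τ hτ D S hL σ B2 hσ hS ω (hW ω hG)
      (fun w => GG B (dact w ω) ∧ Bad1 c y τ D S t t2 (dact w ω)) (fun w hw => hw.2)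
  · refine le_trans (le_of_eq ?_) (Real.exp_pos _).le
    refine Finset.sum_eq_zero fun w _ => ?_
    rw [if_neg, mul_zero]
    intro h
    exact hG ((GG_dact B w ω).1 h.1)

/-- the places of the indices in `Ex` -/
theorem NN_le (c : Pts n M) (D : Finset (Ix b m)) (S : Pd b m) (w : Perm (Fin n))
    (ω : Om n b m) [DecidablePred fun P : Fin n => ∃ j, w P = c (j, false)] :
    NN c D S (dact w ω) ≤
      (((Ex D S ω).image fun e => ω.1 e.1 e.2.1).filter fun P => ∃ j, w P = c (j, false)).card := by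
  classical
  unfold NN
  rw [Ex_dact]
  refine Finset.card_le_card_of_injOn (fun j => w⁻¹ (c (j, false))) ?_ ?_
  · intro j hj
    rw [Finset.mem_coe, Finset.mem_filter] at hj
    obtain ⟨-, e, he, h1⟩ := hj
    rw [Finset.mem_coe, Finset.mem_filter, Finset.mem_image]
    rw [dact_fst] at h1
    have h2 : w⁻¹ (c (j, false)) = ω.1 e.1 e.2.1 := by
      rw [← h1]
      exact w.symm_apply_apply _
    refine ⟨⟨e, he, h2.symm⟩, j, ?_⟩
    exact w.apply_symm_apply _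
  · intro j _ j' _ h
    have h1 := c.injective (w⁻¹.injective h)
    exact (Prod.mk.inj h1).1

/-- (2) many special places with unpredicted coincidences, although these are rare -/
theorem massEx (hLT : LTStmt) (hCH1 : CH1Stmt) (z : Fin k → Alt n) (hk : 0 < k)
    (F : Om n b m → ℝ) (g : ℝ) (hF : Near z dact F g) (c' δ : ℝ) (i j : ℕ) (hij : 2 * i ≤ j)
    (hδ : (Real.sqrt (2 * i * g) + Real.exp (-(c' * (2 * i)))) ^ 2 ≤ δ)
    (hn : 4 ≤ n) (hκ : Qu (lazyLaw z (2 * j)))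
    (c : Pts n M) (D : Finset (Ix b m)) (S : Pd b m) (x μ : ℝ) (hμ : 100 ≤ μ)
    (hx : x * M / n ≤ μ / 100)
    (hr : 400 / μ ≤ Real.exp (-(c' * (2 * j)))) [DecidablePred fun ω : Om n b m =>
      ((Ex D S ω).card : ℝ) ≤ x ∧ μ / 41 ≤ (NN c D S ω : ℝ)] :
    ∑ ω : Om n b m, (if ((Ex D S ω).card : ℝ) ≤ x ∧ μ / 41 ≤ (NN c D S ω : ℝ) then F ω ^ 2
      else 0) ≤ δ := by
  classical
  refine massP hLT z hk dact dact_one dact_mul F g hF c' δ i j hij hδ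
    (fun ω => ((Ex D S ω).card : ℝ) ≤ x ∧ μ / 41 ≤ (NN c D S ω : ℝ)) fun ω => ?_
  by_cases hG : ((Ex D S ω).card : ℝ) ≤ x
  · refine le_trans ?_ hr
    refine prEx hCH1 (lazyLaw z (2 * j)) hn hκ c ((Ex D S ω).image fun e => ω.1 e.1 e.2.1) μ hμ
      ?_ (fun w => ((Ex D S (dact w ω)).card : ℝ) ≤ x ∧ μ / 41 ≤ (NN c D S (dact w ω) : ℝ))
      (fun w => NN c D S (dact w ω)) (fun w => NN_le c D S w ω) (fun w hw => hw.2)
    refine le_trans ?_ hx
    have h1 : (((Ex D S ω).image fun e => ω.1 e.1 e.2.1).card : ℝ) ≤ x :=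
      le_trans (by exact_mod_cast Finset.card_image_le) hG
    exact div_le_div_of_nonneg_right (mul_le_mul_of_nonneg_right h1 (Nat.cast_nonneg _))
      (Nat.cast_nonneg _)
  · refine le_trans (le_of_eq ?_) (Real.exp_pos _).le
    refine Finset.sum_eq_zero fun w _ => ?_
    rw [if_neg, mul_zero]
    intro h
    rw [Ex_dact] at h
    exact hG h.1

/-- (U) a single tuple and a fixed set -/
theorem massU (hLT : LTStmt) (hCH1 : CH1Stmt) (z : Fin k → Alt n) (hk : 0 < k)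
    (f : Fn n b) (g : ℝ)
    (hF : Near z (fun w (x : Fin b ↪ Fin n) => x.trans w.toEmbedding) f g) (c' δ : ℝ)
    (i j : ℕ) (hij : 2 * i ≤ j)
    (hδ : (Real.sqrt (2 * i * g) + Real.exp (-(c' * (2 * i)))) ^ 2 ≤ δ)
    (hn : 4 ≤ n) (hκ : Qu (lazyLaw z (2 * j))) (hb : (1 : ℝ) ≤ (b : ℝ) ^ 2 / n)
    (hr : 1 / ((b : ℝ) ^ 2 / n) ≤ Real.exp (-(c' * (2 * j)))) (R : Finset (Fin n))
    (hR : R.card = b) (E : Finset (Fin b ↪ Fin n))
    (hE : ∀ x ∈ E, 8 * ((b : ℝ) ^ 2 / n) < (((Finset.univ.map x) ∩ R).card : ℝ)) :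
    ∑ x ∈ E, f x ^ 2 ≤ δ := by
  classical
  have h := massP hLT z hk (fun w (x : Fin b ↪ Fin n) => x.trans w.toEmbedding) (fun _ => rfl)
    (fun _ _ _ => rfl) f g hF c' δ i j hij hδ
    (fun x => 8 * ((b : ℝ) ^ 2 / n) < (((Finset.univ.map x) ∩ R).card : ℝ)) (fun x => by
      refine le_trans ?_ hr
      exact prU hCH1 (lazyLaw z (2 * j)) hn hκ x R hR hb _ (fun w hw => hw))
  refine le_trans ?_ h
  rw [← Finset.sum_filter]
  refine Finset.sum_le_sum_of_subset_of_nonneg (fun x hx => ?_) (fun _ _ _ => sq_nonneg _)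
  rw [Finset.mem_filter]
  exact ⟨Finset.mem_univ _, hE x hx⟩

end Pool.Agent.Helper86.FS
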