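import Pool.Agent.Helper86.FS.Pair2

/-! Project FS (MP_75608d_al), part START: numbers. -/

set_option linter.unusedVariables false
set_option linter.unusedSectionVars false

namespace Pool.Agent.Helper86.FS

open Equiv Filter

/-- basic numbers -/
theorem nums (m i : ℕ) (hm : 0 < m) : ∃ N : ℕ, ∀ n ≥ N, ∀ b M : ℕ,
    (n : ℝ) ^ (31 / 32 : ℝ) ≤ b → (b : ℝ) ≤ n / (256 * m) → (n : ℝ) ^ (1 / 5 : ℝ) ≤ M →
    (M : ℝ) ≤ (n : ℝ) ^ (1 / 4 : ℝ) →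
    100 ≤ n ∧ 4 ≤ b ∧ 1 ≤ Real.log n ∧ (i : ℝ) ≤ Real.log n ∧
    400 ≤ (n : ℝ) ^ (1 / 40 : ℝ) ∧
    100 ≤ (M : ℝ) * m ^ 2 * b ^ 2 / (n : ℝ) ^ 2 ∧
    (n : ℝ) ^ (1 / 8 : ℝ) ≤ (M : ℝ) * m ^ 2 * b ^ 2 / (n : ℝ) ^ 2 ∧
    (M : ℝ) * m ^ 2 * b ^ 2 / (n : ℝ) ^ 2 ≤ (n : ℝ) ^ (1 / 4 : ℝ) / 65536 ∧
    8 * M ≤ n ∧ (n : ℝ) ^ (1 / 8 : ℝ) ≤ (b : ℝ) ^ 2 / n := by
  have hlog : Tendsto (fun n : ℕ => Real.log (n : ℝ)) atTop atTop :=
    Real.tendsto_log_atTop.comp tendsto_natCast_atTop_atTop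
  have hpow : ∀ p : ℝ, 0 < p → Tendsto (fun n : ℕ => (n : ℝ) ^ p) atTop atTop := fun p hp =>
    (tendsto_rpow_atTop hp).comp tendsto_natCast_atTop_atTop
  have h1 := (hlog.eventually_ge_atTop 1).and ((hlog.eventually_ge_atTop (i : ℝ)).and
    (((hpow (1 / 40) (by norm_num)).eventually_ge_atTop 400).and
    (((hpow (1 / 8) (by norm_num)).eventually_ge_atTop 100).and
    (((hpow (31 / 32) (by norm_num)).eventually_ge_atTop 4).and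
    (((hpow (3 / 4) (by norm_num)).eventually_ge_atTop 8).and
    (eventually_ge_atTop (100 : ℕ)))))))
  obtain ⟨N, hN⟩ := eventually_atTop.1 h1
  refine ⟨N, fun n hn b M hb hb2 hM hM2 => ?_⟩
  obtain ⟨e1, e2, e3, e4, e5, e6, e7⟩ := hN n hn
  have n0 : (0 : ℝ) < n := by
    have : (100 : ℝ) ≤ n := by exact_mod_cast e7
    linarith
  have n1 : (1 : ℝ) ≤ n := by
    have : (100 : ℝ) ≤ n := by exact_mod_cast e7
    linarith
  have m1 : (1 : ℝ) ≤ m := by exact_mod_cast hm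
  have b4 : (4 : ℝ) ≤ b := e5.trans hb
  have key : (n : ℝ) ^ (1 / 8 : ℝ) ≤ (M : ℝ) * m ^ 2 * b ^ 2 / (n : ℝ) ^ 2 := by
    rw [le_div_iff₀ (by positivity)]
    have a1 : (n : ℝ) ^ (1 / 8 : ℝ) * (n : ℝ) ^ 2 ≤
        (n : ℝ) ^ (1 / 5 : ℝ) * ((n : ℝ) ^ (31 / 32 : ℝ)) ^ 2 := by
      rw [← Real.rpow_natCast ((n : ℝ) ^ (31 / 32 : ℝ)) 2, ← Real.rpow_mul n0.le,
        ← Real.rpow_natCast (n : ℝ) 2, ← Real.rpow_add n0, ← Real.rpow_add n0]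
      exact Real.rpow_le_rpow_of_exponent_le n1 (by norm_num)
    refine a1.trans ?_
    have a2 : ((n : ℝ) ^ (31 / 32 : ℝ)) ^ 2 ≤ (b : ℝ) ^ 2 :=
      pow_le_pow_left₀ (by positivity) hb 2
    have a3 : (n : ℝ) ^ (1 / 5 : ℝ) * ((n : ℝ) ^ (31 / 32 : ℝ)) ^ 2 ≤ (M : ℝ) * (b : ℝ) ^ 2 :=
      mul_le_mul hM a2 (by positivity) (by positivity)
    refine a3.trans ?_
    have a4 : (1 : ℝ) ≤ (m : ℝ) ^ 2 := one_le_pow₀ m1
    have a5 : 0 ≤ (M : ℝ) * (b : ℝ) ^ 2 := by positivity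
    nlinarith
  have hb3 : (m : ℝ) * b / n ≤ 1 / 256 := by
    rw [div_le_div_iff₀ n0 (by norm_num)]
    rw [le_div_iff₀ (by positivity)] at hb2
    linarith
  refine ⟨e7, by exact_mod_cast b4, e1, e2, e3, e4.trans key, key, ?_, ?_, ?_⟩
  · have a1 : (M : ℝ) * m ^ 2 * b ^ 2 / (n : ℝ) ^ 2 = M * ((m : ℝ) * b / n) ^ 2 := by
      field_simp
    rw [a1]
    have a2 : ((m : ℝ) * b / n) ^ 2 ≤ (1 / 256) ^ 2 := pow_le_pow_left₀ (by positivity) hb3 2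
    calc (M : ℝ) * ((m : ℝ) * b / n) ^ 2 ≤ (n : ℝ) ^ (1 / 4 : ℝ) * (1 / 256) ^ 2 :=
          mul_le_mul hM2 a2 (by positivity) (by positivity)
      _ = (n : ℝ) ^ (1 / 4 : ℝ) / 65536 := by norm_num; ring
  · have a1 : (8 : ℝ) * M ≤ n := by
      calc (8 : ℝ) * M ≤ (n : ℝ) ^ (3 / 4 : ℝ) * (n : ℝ) ^ (1 / 4 : ℝ) :=
            mul_le_mul e6 hM2 (by positivity) (by positivity)
        _ = n := by
            rw [← Real.rpow_add n0]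
            norm_num
    exact_mod_cast a1
  · rw [le_div_iff₀ n0]
    calc (n : ℝ) ^ (1 / 8 : ℝ) * n ≤ ((n : ℝ) ^ (31 / 32 : ℝ)) ^ 2 := by
          rw [← Real.rpow_natCast ((n : ℝ) ^ (31 / 32 : ℝ)) 2, ← Real.rpow_mul n0.le]
          nth_rewrite 2 [← Real.rpow_one (n : ℝ)]
          rw [← Real.rpow_add n0]
          exact Real.rpow_le_rpow_of_exponent_le n1 (by norm_num)
      _ ≤ (b : ℝ) ^ 2 := pow_le_pow_left₀ (by positivity) hb 2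

/-- short words: the one-step probabilities are small enough -/
theorem short_le (n : ℕ) (ε X c : ℝ) (j : ℕ) (hε : 0 < ε) (hε1 : ε ≤ 1) (hc : c = ε / 40000)
    (hj : j = ⌈10 / ε * Real.log n⌉₊) (hl : 1 ≤ Real.log n) (hn : 1 ≤ n)
    (hX : (n : ℝ) ^ (1 / 8 : ℝ) ≤ X) (h40 : 400 ≤ (n : ℝ) ^ (1 / 40 : ℝ)) :
    400 / X ≤ Real.exp (-(c * (2 * j))) := by
  have n0 : (0 : ℝ) < n := by exact_mod_cast hn
  have hj1 : (j : ℝ) ≤ 10 / ε * Real.log n + 1 := by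
    rw [hj]
    exact (Nat.ceil_lt_add_one (by positivity)).le
  have h1 : c * (2 * j) ≤ 1 / 10 * Real.log n := by
    have h2 : c * (2 * j) ≤ ε / 40000 * (2 * (10 / ε * Real.log n + 1)) := by
      rw [hc]
      exact mul_le_mul_of_nonneg_left (by linarith) (by positivity)
    have h3 : ε / 40000 * (2 * (10 / ε * Real.log n + 1)) =
        20 / 40000 * Real.log n + ε * 2 / 40000 := by
      field_simp
      ring
    rw [h3] at h2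
    nlinarith
  have h4 : (n : ℝ) ^ (-(1 / 10) : ℝ) ≤ Real.exp (-(c * (2 * j))) := by
    rw [Real.rpow_def_of_pos n0]
    apply Real.exp_le_exp.2
    linarith
  refine le_trans ?_ h4
  have hX0 : 0 < X := lt_of_lt_of_le (by positivity) hX
  rw [div_le_iff₀ hX0]
  calc (400 : ℝ) ≤ (n : ℝ) ^ (1 / 40 : ℝ) := h40
    _ = (n : ℝ) ^ (-(1 / 10) : ℝ) * (n : ℝ) ^ (1 / 8 : ℝ) := by
        rw [← Real.rpow_add n0]; norm_num
    _ ≤ (n : ℝ) ^ (-(1 / 10) : ℝ) * X := mul_le_mul_of_nonneg_left hX (by positivity)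

/-- long words -/
theorem long_le (n R : ℕ) (ε μ c : ℝ) (j : ℕ) (hε : 0 < ε) (hε1 : ε ≤ 1) (hc : c = ε / 40000)
    (hj : j = ⌈(R : ℝ) / ε * Real.log n⌉₊) (hl : 1 ≤ Real.log n) (hμ : 100 ≤ μ)
    (hR : (R : ℝ) ≤ 81 * μ) :
    Real.exp (-((1 / 200) * μ * Real.log n)) ≤ Real.exp (-(c * (2 * j))) := by
  apply Real.exp_le_exp.2
  have hj1 : (j : ℝ) ≤ R / ε * Real.log n + 1 := by
    rw [hj]
    exact (Nat.ceil_lt_add_one (by positivity)).le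
  have h2 : c * (2 * j) ≤ ε / 40000 * (2 * (R / ε * Real.log n + 1)) := by
    rw [hc]
    exact mul_le_mul_of_nonneg_left (by linarith) (by positivity)
  have h3 : ε / 40000 * (2 * (R / ε * Real.log n + 1)) =
      2 * R / 40000 * Real.log n + ε * 2 / 40000 := by
    field_simp
  rw [h3] at h2
  have h4 : 2 * (R : ℝ) / 40000 * Real.log n ≤ 2 * (81 * μ) / 40000 * Real.log n :=
    mul_le_mul_of_nonneg_right (by linarith) (by linarith)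
  have h5 : 1 ≤ μ * Real.log n := by nlinarith
  nlinarith

/-- clean pairs -/
theorem W0_num (hW0C : W0CStmt) {n b m : ℕ} (hm : 0 < m) (hb4 : 4 ≤ b) (hn : 0 < n)
    (hb : (b : ℝ) ≤ n / (256 * m)) (M : ℕ) (D : Finset (Ix b m)) (hD : 2 * D.card ≤ m ^ 2 * b + 1)
    (ω : Om n b m) (hG : GG (8 * ((b : ℝ) ^ 2 / n)) ω) :
    (M : ℝ) * m ^ 2 * b ^ 2 / (n : ℝ) ^ 2 / 4 ≤ (M : ℝ) * (W0 D ω).card / (n : ℝ) ^ 2 := by
  have h := hW0C n b m (8 * ((b : ℝ) ^ 2 / n)) D ω (by positivity) hG hD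
  have n0 : (0 : ℝ) < n := by exact_mod_cast hn
  have m1 : (1 : ℝ) ≤ m := by exact_mod_cast hm
  have b4 : (4 : ℝ) ≤ b := by exact_mod_cast hb4
  have h1 : 4 * (m : ℝ) ^ 3 * b * (8 * ((b : ℝ) ^ 2 / n)) ≤ (m : ℝ) ^ 2 * b ^ 2 / 8 := by
    have e : 4 * (m : ℝ) ^ 3 * b * (8 * ((b : ℝ) ^ 2 / n)) =
        (m : ℝ) ^ 2 * b ^ 2 * (32 * (m * b / n)) := by
      field_simp
      ring
    rw [e]
    have h2 : (m : ℝ) * b / n ≤ 1 / 256 := by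
      rw [div_le_div_iff₀ n0 (by norm_num)]
      rw [le_div_iff₀ (by positivity)] at hb
      linarith
    have h3 : 0 ≤ (m : ℝ) ^ 2 * b ^ 2 := by positivity
    nlinarith
  have h2 : (b : ℝ) / 2 ≤ (m : ℝ) ^ 2 * b ^ 2 / 8 := by
    have : (1 : ℝ) ≤ (m : ℝ) ^ 2 := one_le_pow₀ m1
    have h3 : 4 * (b : ℝ) ≤ (b : ℝ) ^ 2 := by nlinarith
    have h4 : (b : ℝ) ^ 2 ≤ (m : ℝ) ^ 2 * b ^ 2 := by nlinarith [sq_nonneg (b : ℝ)]
    linarith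
  have h3 : (m : ℝ) ^ 2 * b ^ 2 / 4 ≤ ((W0 D ω).card : ℝ) := by linarith
  rw [div_div, mul_comm ((n : ℝ) ^ 2) 4, ← div_div]
  refine div_le_div_of_nonneg_right ?_ (by positivity)
  have h4 := mul_le_mul_of_nonneg_left h3 (Nat.cast_nonneg (α := ℝ) M)
  linarith

/-- disturbing pairs -/
theorem W2_num (hW2C : W2CStmt) {n b m : ℕ} (hn : 0 < n) (D : Finset (Ix b m))
    (ω : Om n b m) (hG : GG (8 * ((b : ℝ) ^ 2 / n)) ω) :
    ((W2 D ω).card : ℝ) ≤ 18 * (m : ℝ) ^ 2 * b ^ 2 := by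
  have h := hW2C n b m (8 * ((b : ℝ) ^ 2 / n)) D ω (by positivity) hG
  refine h.trans (le_of_eq ?_)
  have n0 : (n : ℝ) ≠ 0 := by
    have : 0 < n := hn
    positivity
  field_simp
  ring

end Pool.Agent.Helper86.FS
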