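import Pool.Agent.Helper86.FS.StartDefs

/-! Project FS (MP_75608d_al), part START: goals.

START: for a fixed tuple `z` with a constant gap on the `r`-tuples, `r ≤ √n`, and for almost every
`y`, every nearly invariant unit function on the injective `b`-tuples (`n ^ (31/32) ≤ b ≤ n / C_K`)
has more than `exp (K (b²/n) log n)` nonzero values.

Proof (pair trick).  `y` and `τ y` (`τ` a product of `M` disjoint transpositions at the special places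
`c (j, ·)`) are not both bad.  `f0` bad for `(z, y)`, `f1` for `(z, τ y)`; `F = f0^{⊗m} ⊗ f1^{⊗m}` on
`Om n b m`; law `F²`.  `U` (coincidences) is invariant under the diagonal action of `z` and has at
most `exp (2 m K (b²/n) log n)` values, so it is predictable (PRED) outside `D`, `|D| ≤ |Ix|/2`:
`|Ex| ≤ m² b²/(100 n)` with probability `≥ 9/10` (`m = ⌈8000 K⌉`).  Write `μ = M m² b²/n²`.
(a) `NN ≥ t := ⌊μ/40⌋` has small probability (lemma T, words of length `C log n`, CH1).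
(b) `NN (mv ω) < t` has small probability: `GG` holds (UB), then (lemma T for words of length
`C log n`, CH2) `|cw W0| ≥ 2 t` and `|cw W2| ≤ 40 μ`, then (lemma T for words of length `C μ log n`,
E1) not `Bad1`, and DET.  (c) by near invariance (FFL) the probabilities of `NN ω ≥ t` and
`NN (mv ω) ≥ t` differ by at most `4 √(m g)`.  Contradiction. -/

set_option linter.unusedVariables false

namespace Pool.Agent.Helper86.FS

open Equiv Pool.Agent.Helper3.AK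

/-- **LT** (lemma T for the lazy walk on a set with an action).
Proof. `P φ ω = ∑_g lazyLaw z 1 g φ (a g ω)` is symmetric, `0 ≤ P ≤ 1`, `P^J φ ω = ∑_w lazyLaw z J w
φ (a w ω)` (induction: `lazyLaw z (J+1) = ` law of `w z_i^±`; `a (w * h) ω = a w (a h ω)`).
`∑ F P F = 1/2 + (2k)⁻¹ ∑_i ∑ F F(z_i ·) ≥ 1 - g` (the sum for `z_i⁻¹` is the same by the substitution
`ω → a z_i ω`).  Then `Pool.Agent.Helper50.FS.lemmaT` (landed, with `avg`, `isSA_avg`). -/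
def LTStmt : Prop := ∀ (n k : ℕ) (z : Fin k → Alt n), 0 < k →
  ∀ (Ω : Type) [Fintype Ω] [DecidableEq Ω] (a : Perm (Fin n) → Ω → Ω), (∀ ω, a 1 ω = ω) →
  (∀ g h ω, a (g * h) ω = a g (a h ω)) → ∀ F : Ω → ℝ, ∑ ω, F ω ^ 2 = 1 → ∀ g : ℝ, g ≤ 1 →
  (∀ i, 1 - g ≤ ∑ ω, F ω * F (a (z i : Perm (Fin n)) ω)) → ∀ (E : Finset Ω) (c : ℝ) (i j : ℕ),
  2 * i ≤ j →
  (∀ ω, ∑ w, lazyLaw z (2 * j) w * (if a w ω ∈ E then (1 : ℝ) else 0) ≤
    Real.exp (-(c * (2 * j)))) →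
  ∑ ω ∈ E, F ω ^ 2 ≤ (Real.sqrt (2 * i * g) + Real.exp (-(c * (2 * i)))) ^ 2

/-- **QU** (words of length `C log n` are uniform on quadruples up to `n ^ (-10)`).
Proof. As S_UR of project AK (file `Pool/Agent/Helper67/AK/UR.lean`, reuse its lemmas): with
`N = (n)_r`, `pT κ a a' = ip δ_a (L^J δ_{a'})`, `δ_{a'} = 1/N + ψ`, `∑ ψ = 0`, `|ψ| ≤ 1`, and
`δ_a = 1/N + ψ'`, so `|pT - 1/N| = |ip ψ' (L^J ψ)| ≤ (1 - ε/2)^J ≤ exp (-ε J/2) ≤ n^(-10)`. -/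
def QUStmt : Prop := ∀ (n k : ℕ) (z : Fin k → Alt n) (ε : ℝ) (J : ℕ), 0 < k → 4 ≤ n → 0 < ε →
  ε ≤ 1 → (∀ r ≤ 4, TupleGap z r ε) → 20 / ε * Real.log n ≤ J → Qu (lazyLaw z J)

/-- **WI** (words of length `C R log n` are nearly `R`-wise uniform).
Proof. S_UR (theorem in `Pool/Agent/Helper67/AK/UR.lean`): `(1-ε/2)^J ≤ exp (-ε J/2) ≤ n^(-R) ≤
1/(n)_R`. -/
def WIStmt : Prop := ∀ (n k R : ℕ) (z : Fin k → Alt n) (ε : ℝ) (J : ℕ), 0 < k → 2 ≤ n → R ≤ n →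
  0 < ε → ε ≤ 1 → (∀ r ≤ R, TupleGap z r ε) → 2 * R / ε * Real.log n ≤ J → Wise (lazyLaw z J) R

/-- **CH1** (second moment, one set moved into another).
Proof. `X w = |{P ∈ A : w P ∈ B}|`, `q = |A||B|/n ≤ n`, `δ = n^(-10)`.  `E X ≥ q - |A||B| δ`,
`E X² ≤ E X + ∑_{P ≠ P'} ∑_{b ≠ b'} P(w P = b, w P' = b') ≤ q + |A||B|δ + |A|²|B|² (1/(n(n-1)) + δ)`.
`|A|²|B|²/(n(n-1)) - q² = q²/(n-1) ≤ (4/3) q`, the terms with `δ` are `≤ 1` in sum. -/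
def CH1Stmt : Prop := ∀ (n : ℕ) (κ : Perm (Fin n) → ℝ), 4 ≤ n → Qu κ → ∀ A B : Finset (Fin n),
  ∑ w, κ w * (((A.filter fun P => w P ∈ B).card : ℝ) - (A.card : ℝ) * B.card / n) ^ 2 ≤
    3 * ((A.card : ℝ) * B.card / n) + 1

/-- **CH2** (second moment, pairs moved to special pairs).
Proof. `X w = |cw c w W| = ∑_j ∑_{p ∈ W} [w p.1 = c (j,false), w p.2 = c (j,true)]` (`w⁻¹ c = P` iff
`w P = c`), `q = M |W|/(n(n-1)) ≤ M`, `δ = n^(-10)`.  `E X ≥ q - M|W|δ`,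
`E X² ≤ E X + M²|W|² (1/(n)_4 + δ)` (for `j ≠ j'` the four special places are distinct, so the four
places are distinct or the event is empty; for `j = j'` the pairs are equal).
`M²|W|²/(n)_4 - q² = q² (4n-6)/((n-2)(n-3)) ≤ 8 q²/n ≤ q`, terms with `δ` are `≤ 1`. -/
def CH2Stmt : Prop := ∀ (n M : ℕ) (κ : Perm (Fin n) → ℝ), 8 ≤ n → 8 * M ≤ n → Qu κ →
  ∀ (c : Pts n M) (W : Finset (Fin n × Fin n)), (∀ p ∈ W, p.1 ≠ p.2) →
  ∑ w, κ w * (((cw c w W).card : ℝ) - (M : ℝ) * W.card / ((n : ℝ) * ((n : ℝ) - 1))) ^ 2 ≤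
    3 * ((M : ℝ) * W.card / ((n : ℝ) * ((n : ℝ) - 1))) + 1

/-- **W0C** (many clean pairs).
Proof. The pairs `(e, a')` with `e ∉ D`: at least `(m² b - 1)/2 * b`.  `(e, a') ↦ (ω.1 e.1 e.2.1,
ω.2 e.2.2 a')` is injective on the pairs with clean image (the conditions in `W0` give back `e.1`,
`e.2.2`, injectivity of the tuples the rest).  The tokens `(i, a)` of the first group whose place is
also a place of another tuple of the first group or of a tuple of the second group: at most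
`m(m-1) B + m² B ≤ 2 m² B` (`GG`); the same for the second group.  Each spoils at most `m b` pairs. -/
def W0CStmt : Prop := ∀ (n b m : ℕ) (B : ℝ) (D : Finset (Ix b m)) (ω : Om n b m), 0 ≤ B → GG B ω →
  2 * D.card ≤ m ^ 2 * b + 1 →
  (m : ℝ) ^ 2 * b ^ 2 / 2 - b / 2 - 4 * m ^ 3 * b * B ≤ ((W0 D ω).card : ℝ)

/-- **W2C** (few disturbing pairs).
Proof. `P` a place of the first group and `Q` of the second: `≤ (m b)²`; exchanged: the same; `P` in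
both groups: `≤ m² B` places, `Q` arbitrary: `≤ m² B n`; `Q` in both groups: the same. -/
def W2CStmt : Prop := ∀ (n b m : ℕ) (B : ℝ) (D : Finset (Ix b m)) (ω : Om n b m), 0 ≤ B → GG B ω →
  ((W2 D ω).card : ℝ) ≤ 2 * ((m : ℝ) * b) ^ 2 + 2 * (m : ℝ) ^ 2 * B * n

/-- **DET** (clean and unpredicted pairs are counted by `NN` after the move).
Proof. For `j ∈ cw c y (W0 D ω)`, `j ∉ PR`: `e, a'` from `W0`, `P = (pq c y j).1`, so `y P =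
c (j,false)` and `τ (y Q) = τ (c (j,true)) = c (j,false)`; hence `U (mv y τ ω) e = some a'`, and
`a' ∉ S e (U (mv y τ ω))` as `j ∉ PR`; so `e ∈ Ex D S (mv y τ ω)`. -/
def DETStmt : Prop := ∀ (n b m M : ℕ) (c : Pts n M) (y τ : Perm (Fin n)) (D : Finset (Ix b m))
  (S : Pd b m) (ω : Om n b m), IsTau τ c →
  (cw c y (W0 D ω)).card ≤ NN c D S (mv y τ ω) + (PR c y τ D S ω).card

/-- **E1A** (fixed sets `T2` of disturbing pairs and `T1` of predicted pairs).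
Proof. Write `P_j = (pq c (y * w) j).1`, `Q_j` the second.  (i) On the event, for `e ∈ D` the value
`U (mv y τ (dact w ω)) e` is a function `û e` of `ω` and of `(P_j, Q_j)`, `j ∈ T2`, only: with
`P = ω.1 e.1 e.2.1` it is `tok (ω.2 e.2.2) Q_j` if `P = P_j`, `j ∈ T2`; `tok (ω.2 e.2.2) P_j` if
`P = Q_j`, `j ∈ T2`; `U ω e` otherwise.  [The place of the first group token is `y w P`; the second
group token there is the one of `ω.2 e.2.2` at `(y w)⁻¹ τ (y w P)` (`τ⁻¹ = τ`), which is `P` if `P` is none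
of the `P_j, Q_j`, and `Q_j` if `P = P_j`, `P_j` if `P = Q_j`.  Let `P ∈ {P_j, Q_j}` with `j ∉ T2`.  Then
`(P_j, Q_j) ∉ W2`, so it is clean or has no place of the second group: in the second case both values
are `none`; if it is clean then `P = P_j` (no first group token at `Q_j`), `e.1, e.2.1` are those of the
clean token, `e.2.2` is not (`e ∈ D`), so there is no token of `ω.2 e.2.2` at `Q_j` and none at `P_j`.]
(ii) So for `j ∈ T1` the pair `(P_j, Q_j)` lies in `V û = {(ω.1 e.1 e.2.1, ω.2 e.2.2 a') : a' ∈ S e û}`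
(`Loc`), `|V| ≤ m² b σ`, and for `j ∈ T2` in `W2 D ω`.  `T1` and `T2` are disjoint (`W0` and `W2` are).
(iii) The number of the values of `(P_j, Q_j)_{j ∈ T1 ∪ T2}` is `≤ B2^|T2| (m² b σ)^|T1|`, and each
(injective) value has probability `≤ 2/(n)_{2(|T1|+|T2|)}` (`Wise`: `w P_j = y⁻¹ c (j,false)`). -/
def E1AStmt : Prop := ∀ (n b m M R : ℕ) (κ : Perm (Fin n) → ℝ), Wise κ R → ∀ (c : Pts n M)
  (y τ : Perm (Fin n)), IsTau τ c → ∀ (D : Finset (Ix b m)) (S : Pd b m), Loc D S →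
  ∀ (σ B2 : ℝ), 0 ≤ σ → (∀ e v, ((S e v).card : ℝ) ≤ σ) → ∀ ω : Om n b m,
  ((W2 D ω).card : ℝ) ≤ B2 → ∀ T1 T2 : Finset (Fin M), 2 * (T1.card + T2.card) ≤ R →
  ∀ ev : Perm (Fin n) → Prop, (∀ w, ev w → cw c (y * w) (W2 D ω) = T2 ∧
    T1 ⊆ PR c y τ D S (dact w ω)) → ∀ [DecidablePred ev],
  ∑ w, κ w * (if ev w then (1 : ℝ) else 0) ≤
    2 * (B2 ^ T2.card * ((m : ℝ) ^ 2 * b * σ) ^ T1.card) /
      (n.descFactorial (2 * (T1.card + T2.card)) : ℝ)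

/-- **E1B** (the long range event).
Proof. If `Bad1 (dact w ω)` put `T2 = cw c (y * w) (W2 D ω)` (`= cw c y (W2 D (dact w ω))`, lemma
`cw_W2_dact` in StartEqv), `|T2| ≤ t2`, and choose `T1 ⊆ PR`, `|T1| = t`.  Union bound and E1A:
`∑_{T2, |T2| ≤ t2} ∑_{T1, |T1| = t} 2 B2^|T2| V^t/(n)_{2(t+|T2|)}`, `(n)_r ≥ (n/2)^r` for `2 r ≤ n`, so
`≤ 2 ∑_{T2} (4 B2/n²)^|T2| * (M choose t) (4V/n²)^t` and `∑_{T2} θ^|T2| = (1+θ)^M ≤ exp (M θ)`. -/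
def E1BStmt : Prop := ∀ (n b m M t t2 : ℕ) (κ : Perm (Fin n) → ℝ), Wise κ (2 * (t + t2)) →
  4 * (t + t2) ≤ n → ∀ (c : Pts n M) (y τ : Perm (Fin n)), IsTau τ c →
  ∀ (D : Finset (Ix b m)) (S : Pd b m), Loc D S → ∀ (σ B2 : ℝ), 0 ≤ σ →
  (∀ e v, ((S e v).card : ℝ) ≤ σ) → ∀ ω : Om n b m, ((W2 D ω).card : ℝ) ≤ B2 →
  ∀ ev : Perm (Fin n) → Prop, (∀ w, ev w → Bad1 c y τ D S t t2 (dact w ω)) →
  ∀ [DecidablePred ev],
  ∑ w, κ w * (if ev w then (1 : ℝ) else 0) ≤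
    2 * (Real.exp (4 * M * B2 / (n : ℝ) ^ 2) * ((M.choose t : ℝ) *
      (4 * ((m : ℝ) ^ 2 * b * σ) / (n : ℝ) ^ 2) ^ t))

/-- **E1N** (numbers for E1B, `σ = √n`, `B2 = 18 m² b²`, `μ = M m² b²/n²`).
Proof. `t ≥ μ/40 - 1 ≥ μ/41` for `n` large (`μ ≥ n^(1/5 - 1/16)`), `(M choose t) ≤ (e M/t)^t`,
`e M/t ≤ 41 e n²/(m² b²)`, so the last factors are `≤ (164 e √n/b)^t ≤ n^(-7t/16)` (`b ≥ n^(31/32)`);
`7/(16·41) ≥ 1/100` and `72 μ + log 2 ≤ (1/200) μ log n` for `n` large. -/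
def E1NStmt : Prop := ∀ m : ℕ, 0 < m → ∃ N : ℕ, ∀ n ≥ N, ∀ (b M t : ℕ), b ≤ n →
  (n : ℝ) ^ (31 / 32 : ℝ) ≤ b → (n : ℝ) ^ (1 / 5 : ℝ) ≤ M → (M : ℝ) ≤ (n : ℝ) ^ (1 / 4 : ℝ) →
  t = ⌊(M : ℝ) * m ^ 2 * b ^ 2 / (n : ℝ) ^ 2 / 40⌋₊ →
  2 * (Real.exp (4 * M * (18 * (m : ℝ) ^ 2 * b ^ 2) / (n : ℝ) ^ 2) * ((M.choose t : ℝ) *
      (4 * ((m : ℝ) ^ 2 * b * Real.sqrt n) / (n : ℝ) ^ 2) ^ t)) ≤
    Real.exp (-((1 / 200) * ((M : ℝ) * m ^ 2 * b ^ 2 / (n : ℝ) ^ 2) * Real.log n))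

/-- **UB** (any two of the `2 m` tuples have few common places).
Proof. For two different indices of tuples the law `F²` makes the two tuples independent, with laws
`f0²` or `f1²`; condition on one of them (its places are a set `R` of size `b`) and use the hypothesis
for the other one; at most `m² + m² + m²` pairs. -/
def UBStmt : Prop := ∀ (n b m : ℕ) (f0 f1 : Fn n b) (B δ : ℝ), ip f0 f0 = 1 → ip f1 f1 = 1 →
  (∀ R : Finset (Fin n), R.card = b → ∀ E : Finset (Fin b ↪ Fin n),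
    (∀ x ∈ E, B < (((Finset.univ.map x) ∩ R).card : ℝ)) → ∑ x ∈ E, f0 x ^ 2 ≤ δ) →
  (∀ R : Finset (Fin n), R.card = b → ∀ E : Finset (Fin b ↪ Fin n),
    (∀ x ∈ E, B < (((Finset.univ.map x) ∩ R).card : ℝ)) → ∑ x ∈ E, f1 x ^ 2 ≤ δ) →
  ∀ E : Finset (Om n b m), (∀ ω ∈ E, ¬ GG B ω) → ∑ ω ∈ E, FF f0 f1 ω ^ 2 ≤ 3 * (m : ℝ) ^ 2 * δ

/-- **FFL** (the product function).
Proof. (1) Fubini.  (2) `∑ FF ω FF (dact w ω) = (ip f0 (Act w f0))^m (ip f1 (Act w f1))^m ≥ (1-g)^(2m) ≥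
1 - 2 m g` (Bernoulli).  (3) `|F∘mv - F|₂² = 2 - 2 ∑ F F∘mv ≤ 4 m g`, `|F∘mv + F|₂ ≤ 2`, Cauchy
(`mv y τ` is a bijection).  (4) the support of `FF` is the product of the supports. -/
def FFLStmt : Prop := ∀ (n b m : ℕ) (f0 f1 : Fn n b) (g : ℝ), ip f0 f0 = 1 → ip f1 f1 = 1 →
  0 ≤ g → g ≤ 1 →
  (∑ ω : Om n b m, FF f0 f1 ω ^ 2 = 1) ∧
  (∀ w : Perm (Fin n), 1 - g ≤ ip f0 (Act w f0) → 1 - g ≤ ip f1 (Act w f1) →
    1 - 2 * m * g ≤ ∑ ω : Om n b m, FF f0 f1 ω * FF f0 f1 (dact w ω)) ∧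
  (∀ y τ : Perm (Fin n), 1 - g ≤ ip f0 (Act y f0) → 1 - g ≤ ip f1 (Act (τ * y) f1) →
    ∑ ω : Om n b m, |FF f0 f1 (mv y τ ω) ^ 2 - FF f0 f1 ω ^ 2| ≤ 4 * Real.sqrt (m * g)) ∧
  (∀ h : ℝ, (Nat.card {x : Fin b ↪ Fin n // f0 x ≠ 0} : ℝ) ≤ Real.exp h →
    (Nat.card {x : Fin b ↪ Fin n // f1 x ≠ 0} : ℝ) ≤ Real.exp h →
    (Nat.card {ω : Om n b m // FF f0 f1 ω ≠ 0} : ℝ) ≤ Real.exp (2 * m * h))

/-- **PRED** (predictor lemma for the coincidences).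
Proof. `Pool.Agent.Helper50.FS.predictor` (landed) with `A = Ix b m`, `|A| = m² b`, `B = Option (Fin b)`,
`K = σ`, `k = ⌈|A|/2⌉` (so `(|A|-k)/k ≤ 1`), and `S' e v = {a' : some a' ∈ S v e}`. -/
def PREDStmt : Prop := ∀ (b m : ℕ) (Ω : Type) [Fintype Ω] (P : Ω → ℝ), IsLaw P → 0 < m → 0 < b →
  ∀ (u : Ω → Ix b m → Option (Fin b)) (h σ : ℝ), (Nat.card {ω // P ω ≠ 0} : ℝ) ≤ Real.exp h →
  1 < σ → ∃ (D : Finset (Ix b m)) (S : Pd b m), 2 * D.card ≤ m ^ 2 * b + 1 ∧ Loc D S ∧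
    (∀ e v, ((S e v).card : ℝ) ≤ σ) ∧
    ∀ X : Ω → Finset (Ix b m), (∀ ω, ∀ e ∈ X ω, e ∉ D ∧ ∃ a', u ω e = some a' ∧ a' ∉ S e (u ω)) →
      ∑ ω, P ω * ((X ω).card : ℝ) ≤ h / Real.log σ

/-- **FAM** (the family for the expurgation).
Proof. `τ i` = product over `j < M` of the transpositions `(2 M i + 2 j, 2 M i + 2 j + 1)`; it is even
as `M` is even; for `i ≠ i'` the `2 M` transpositions of `τ i' (τ i)⁻¹ = τ i' τ i` are disjoint. -/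
def FAMStmt : Prop := ∀ n M : ℕ, Even M → 0 < M → ∃ τ : Fin (n / (2 * M)) → Alt n,
  ∀ i i', i ≠ i' → ∃ c : Pts n (2 * M), IsTau ((τ i' * (τ i)⁻¹ : Alt n) : Perm (Fin n)) c

/-- **PAIR** (pair theorem; assembled by helper86 from the packets). -/
def PAIRStmt : Prop := ∀ (k : ℕ) (ε K : ℝ), 0 < k → 0 < ε → ε ≤ 1 → 0 < K → ∃ (g C : ℝ) (N : ℕ),
  0 < g ∧ 0 < C ∧ ∀ n ≥ N, ∀ z : Fin k → Alt n,
  (∀ r : ℕ, (r : ℝ) ≤ (n : ℝ) ^ (1 / 2 : ℝ) → TupleGap z r ε) →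
  ∀ b : ℕ, (n : ℝ) ^ (31 / 32 : ℝ) ≤ b → (b : ℝ) ≤ n / C → ∀ M : ℕ, (n : ℝ) ^ (1 / 5 : ℝ) ≤ M →
  (M : ℝ) ≤ (n : ℝ) ^ (1 / 4 : ℝ) → ∀ (c : Pts n M) (y τ : Alt n),
  IsTau (τ : Perm (Fin n)) c → Bad z y b g K → Bad z (τ * y) b g K → False

/-- **START** (assembled by helper86). -/
def STARTStmt : Prop := ∀ (k : ℕ) (ε K : ℝ), 0 < k → 0 < ε → ε ≤ 1 → 0 < K → ∃ (g C : ℝ) (N : ℕ),
  0 < g ∧ 0 < C ∧ ∀ n ≥ N, ∀ z : Fin k → Alt n,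
  (∀ r : ℕ, (r : ℝ) ≤ (n : ℝ) ^ (1 / 2 : ℝ) → TupleGap z r ε) →
  ∀ b : ℕ, (n : ℝ) ^ (31 / 32 : ℝ) ≤ b → (b : ℝ) ≤ n / C →
  (Nat.card {y : Alt n // Bad z y b g K} : ℝ) ≤
    (n : ℝ) ^ (-(1 / 2) : ℝ) * Nat.card (Alt n)

end Pool.Agent.Helper86.FS
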