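import Pool.Agent.Helper86.FS.Start
import Pool.Agent.Helper3.AK.Final
import Pool.Agent.Helper35.TP.Gap

/-! Project FS (MP_75608d_al): the input of the top region, with probability tending to one. -/

set_option linter.unusedVariables false
set_option linter.unusedSectionVars false

namespace Pool.Agent.Helper86.FS

open Equiv Filter Topology Pool.Agent.Helper3.AK

variable {n k : ℕ}

/-- constant gap on the `r`-tuples, `r ≤ √n`, and small return probabilities on all dyadic levels in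
`[n^(31/32), n/C]` -/
def TopIn (z : Fin k → Alt n) (ε K C₁ C : ℝ) : Prop :=
  (∀ r : ℕ, (r : ℝ) ≤ (n : ℝ) ^ (1 / 2 : ℝ) → TupleGap z r ε) ∧
  ∀ i : ℕ, (n : ℝ) ^ (31 / 32 : ℝ) ≤ ((2 ^ i : ℕ) : ℝ) → ((2 ^ i : ℕ) : ℝ) ≤ n / C →
    ∀ (a : Fin (2 ^ i) ↪ Fin n) (t : ℕ), C₁ * (((2 ^ i : ℕ) : ℝ) ^ 2 / n) * Real.log n ≤ t →
      pT (lazyLaw z (2 * t)) a a ≤ Real.exp (-(K * (((2 ^ i : ℕ) : ℝ) ^ 2 / n) * Real.log n))

theorem card_snoc (P : (Fin (k + 1) → Alt n) → Prop) :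
    (Nat.card {z : Fin (k + 1) → Alt n // P z} : ℝ) =
      ∑ z : Fin k → Alt n, (Nat.card {y : Alt n // P (Fin.snoc z y)} : ℝ) := by
  classical
  have h1 : (Nat.card {z : Fin (k + 1) → Alt n // P z} : ℝ) =
      ∑ z : Fin (k + 1) → Alt n, (if P z then (1 : ℝ) else 0) := by
    rw [Finset.sum_boole, Nat.card_eq_fintype_card, Fintype.card_subtype]
  have h2 : ∀ z : Fin k → Alt n, (Nat.card {y : Alt n // P (Fin.snoc z y)} : ℝ) =
      ∑ y : Alt n, (if P (Fin.snoc z y) then (1 : ℝ) else 0) := by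
    intro z
    rw [Finset.sum_boole, Nat.card_eq_fintype_card, Fintype.card_subtype]
  rw [h1, Finset.sum_congr rfl fun z _ => h2 z]
  rw [← Equiv.sum_comp (Fin.snocEquiv fun _ : Fin (k + 1) => Alt n)
    (fun z => if P z then (1 : ℝ) else 0), Fintype.sum_prod_type, Finset.sum_comm]
  rfl

theorem card_good (Q : Alt n → Prop) (s : Finset ℕ) (B : ℕ → Alt n → Prop) (δ : ℝ)
    (hQ : ∀ y, (∀ i ∈ s, ¬ B i y) → Q y)
    (hB : ∀ i ∈ s, (Nat.card {y : Alt n // B i y} : ℝ) ≤ δ * Nat.card (Alt n)) :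
    (1 - s.card * δ) * Nat.card (Alt n) ≤ (Nat.card {y : Alt n // Q y} : ℝ) := by
  classical
  have h1 : (Nat.card {y : Alt n // Q y} : ℝ) = ∑ y : Alt n, (if Q y then (1 : ℝ) else 0) := by
    rw [Finset.sum_boole, Nat.card_eq_fintype_card, Fintype.card_subtype]
  have h2 : ∀ i, (Nat.card {y : Alt n // B i y} : ℝ) =
      ∑ y : Alt n, (if B i y then (1 : ℝ) else 0) := by
    intro i
    rw [Finset.sum_boole, Nat.card_eq_fintype_card, Fintype.card_subtype]
  have h3 : (Nat.card (Alt n) : ℝ) = ∑ y : Alt n, (1 : ℝ) := by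
    rw [Finset.sum_const, Finset.card_univ, Nat.card_eq_fintype_card, nsmul_eq_mul, mul_one]
  have h4 : (Nat.card (Alt n) : ℝ) ≤ (Nat.card {y : Alt n // Q y} : ℝ) +
      ∑ i ∈ s, (Nat.card {y : Alt n // B i y} : ℝ) := by
    rw [Finset.sum_congr rfl fun i _ => h2 i, Finset.sum_comm, h3, h1,
      ← Finset.sum_add_distrib]
    refine Finset.sum_le_sum fun y _ => ?_
    by_cases hy : ∀ i ∈ s, ¬ B i y
    · rw [if_pos (hQ y hy)]
      have : 0 ≤ ∑ i ∈ s, (if B i y then (1 : ℝ) else 0) :=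
        Finset.sum_nonneg fun i _ => by split_ifs <;> norm_num
      linarith
    · push Not at hy
      obtain ⟨i, hi, hB⟩ := hy
      have h5 : (1 : ℝ) ≤ ∑ i ∈ s, (if B i y then (1 : ℝ) else 0) := by
        refine le_trans (le_of_eq ?_) (Finset.single_le_sum
          (f := fun i => if B i y then (1 : ℝ) else 0) (fun i _ => by split_ifs <;> norm_num) hi)
        simp only [hB, if_true]
      have h6 : (0 : ℝ) ≤ if Q y then (1 : ℝ) else 0 := by split_ifs <;> norm_num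
      linarith
  have h5 : ∑ i ∈ s, (Nat.card {y : Alt n // B i y} : ℝ) ≤ s.card * (δ * Nat.card (Alt n)) := by
    rw [← nsmul_eq_mul]
    exact Finset.sum_le_card_nsmul _ _ _ hB
  nlinarith

theorem tendsto_err : Tendsto (fun n : ℕ => 1 - ((Nat.log 2 n + 1 : ℕ) : ℝ) *
    (n : ℝ) ^ (-(1 / 2) : ℝ)) atTop (𝓝 1) := by
  have h1 : Tendsto (fun n : ℕ => Real.log (n : ℝ) / (n : ℝ) ^ (1 / 2 : ℝ)) atTop (𝓝 0) :=
    ((isLittleO_log_rpow_atTop (by norm_num : (0 : ℝ) < 1 / 2)).tendsto_div_nhds_zero).comp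
      tendsto_natCast_atTop_atTop
  have h2 : Tendsto (fun n : ℕ => ((n : ℝ) ^ (1 / 2 : ℝ))⁻¹) atTop (𝓝 0) :=
    ((tendsto_rpow_atTop (by norm_num : (0 : ℝ) < 1 / 2)).comp
      tendsto_natCast_atTop_atTop).inv_tendsto_atTop
  have h3 : Tendsto (fun n : ℕ => 1 - (2 * (Real.log (n : ℝ) / (n : ℝ) ^ (1 / 2 : ℝ)) +
      ((n : ℝ) ^ (1 / 2 : ℝ))⁻¹)) atTop (𝓝 1) := by
    have := ((h1.const_mul 2).add h2).const_sub 1
    simpa using this
  refine tendsto_of_tendsto_of_tendsto_of_le_of_le' h3 tendsto_const_nhds ?_ ?_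
  · filter_upwards [eventually_ge_atTop 1] with n hn
    have n1 : (1 : ℝ) ≤ n := by exact_mod_cast hn
    have n0 : (0 : ℝ) < n := by linarith
    have hp : (0 : ℝ) < (n : ℝ) ^ (1 / 2 : ℝ) := by positivity
    have h4 : ((Nat.log 2 n : ℕ) : ℝ) ≤ 2 * Real.log n := by
      have h5 : ((2 ^ Nat.log 2 n : ℕ) : ℝ) ≤ n := by
        exact_mod_cast Nat.pow_log_le_self 2 (by omega)
      have h6 := Real.log_le_log (by positivity) h5
      push_cast at h6
      rw [Real.log_pow] at h6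
      have h7 : (1 / 2 : ℝ) ≤ Real.log 2 := by
        have := Real.log_two_gt_d9
        linarith
      have h8 : (0 : ℝ) ≤ ((Nat.log 2 n : ℕ) : ℝ) := Nat.cast_nonneg _
      nlinarith
    rw [Real.rpow_neg n0.le]
    push_cast
    have h9 : 0 < ((n : ℝ) ^ (1 / 2 : ℝ))⁻¹ := inv_pos.2 hp
    rw [div_eq_mul_inv]
    nlinarith
  · filter_upwards [] with n
    have : 0 ≤ ((Nat.log 2 n + 1 : ℕ) : ℝ) * (n : ℝ) ^ (-(1 / 2) : ℝ) := by positivity
    linarith

/-- **The input of the top region.** -/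
theorem topin (k : ℕ) (hk : 3 ≤ k) : ∃ ε : ℝ, 0 < ε ∧ ε ≤ 1 ∧ ∀ K : ℝ, 0 < K →
    ∃ C₁ C : ℝ, 0 < C₁ ∧ 0 < C ∧
    Tendsto (fun n : ℕ => (Nat.card {z : Fin (k + 1) → Alt n // TopIn z ε K C₁ C} : ℝ) /
      Nat.card (Fin (k + 1) → Alt n)) atTop (𝓝 1) := by
  classical
  obtain ⟨ε₁, hε₁, h⟩ := main_uniform (1 / 2) (by norm_num)
  have hk2 : (1 / 2 : ℝ) < 1 - 2 / 3 / 2 ^ (k - 2) := by
    have h1 : (2 : ℝ) ^ 1 ≤ 2 ^ (k - 2) := pow_le_pow_right₀ (by norm_num) (by omega)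
    have h2 : (2 : ℝ) / 3 / 2 ^ (k - 2) ≤ 2 / 3 / 2 ^ 1 :=
      div_le_div_of_nonneg_left (by norm_num) (by norm_num) h1
    norm_num at h2
    linarith
  have hE := h k (by omega) hk2
  set ε₂ : ℝ := min ε₁ 1 with hε₂
  have hε₂0 : 0 < ε₂ := lt_min hε₁ one_pos
  have hε₂1 : ε₂ ≤ 1 := min_le_right _ _
  have hk0 : (0 : ℝ) < k := by
    have : 0 < k := by omega
    exact_mod_cast this
  refine ⟨ε₂ * k / (k + 1), by positivity, ?_, ?_⟩
  · rw [div_le_one (by positivity)]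
    nlinarith
  intro K hK
  obtain ⟨C₁, C, N, hC₁, hC, hs⟩ := supstart k ε₂ K (by omega) hε₂0 hε₂1 hK
  refine ⟨C₁, C, hC₁, hC, ?_⟩
  have hlow : Tendsto (fun n : ℕ => (Nat.card {x : Fin k → Alt n // ∀ r : ℕ,
      (r : ℝ) ≤ (n : ℝ) ^ (1 / 2 : ℝ) → GroupGap x r ε₁ ∧ TupleGap x r ε₁} : ℝ) /
      Nat.card (Fin k → Alt n) * (1 - ((Nat.log 2 n + 1 : ℕ) : ℝ) *
      (n : ℝ) ^ (-(1 / 2) : ℝ))) atTop (𝓝 1) := by
    have := hE.mul tendsto_err
    simpa using this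
  refine tendsto_of_tendsto_of_tendsto_of_le_of_le' hlow tendsto_const_nhds ?_ ?_
  · filter_upwards [eventually_ge_atTop N] with n hn
    have hA0 : (0 : ℝ) < Nat.card (Alt n) := by exact_mod_cast Nat.card_pos
    have hAk : (0 : ℝ) < Nat.card (Fin k → Alt n) := by exact_mod_cast Nat.card_pos
    have hcard : (Nat.card (Fin (k + 1) → Alt n) : ℝ) =
        Nat.card (Fin k → Alt n) * Nat.card (Alt n) := by
      rw [Nat.card_eq_fintype_card, Nat.card_eq_fintype_card, Nat.card_eq_fintype_card,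
        Fintype.card_fun, Fintype.card_fun, Fintype.card_fin, Fintype.card_fin]
      push_cast
      ring
    rw [hcard, div_mul_eq_mul_div, div_le_div_iff₀ hAk (by positivity)]
    have key : ∀ z : Fin k → Alt n, (∀ r : ℕ,
        (r : ℝ) ≤ (n : ℝ) ^ (1 / 2 : ℝ) → GroupGap z r ε₁ ∧ TupleGap z r ε₁) →
        (1 - ((Nat.log 2 n + 1 : ℕ) : ℝ) * (n : ℝ) ^ (-(1 / 2) : ℝ)) * Nat.card (Alt n) ≤
        (Nat.card {y : Alt n // TopIn (Fin.snoc z y : Fin (k + 1) → Alt n)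
          (ε₂ * k / (k + 1)) K C₁ C} : ℝ) := by
      intro z hz
      have hz2 : ∀ r : ℕ, (r : ℝ) ≤ (n : ℝ) ^ (1 / 2 : ℝ) → TupleGap z r ε₂ := by
        intro r hr φ hφ
        refine ((hz r hr).2 φ hφ).trans ?_
        have h1 : 0 ≤ ∑ a, φ a ^ 2 := Finset.sum_nonneg fun _ _ => sq_nonneg _
        have h2 : ε₂ ≤ ε₁ := min_le_left _ _
        nlinarith
      set s : Finset ℕ := (Finset.range (Nat.log 2 n + 1)).filter fun i =>
        (n : ℝ) ^ (31 / 32 : ℝ) ≤ ((2 ^ i : ℕ) : ℝ) ∧ ((2 ^ i : ℕ) : ℝ) ≤ n / C with hsdef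
      have hg := card_good (fun y : Alt n => TopIn (Fin.snoc z y : Fin (k + 1) → Alt n)
          (ε₂ * k / (k + 1)) K C₁ C) s
        (fun i y => ¬ ∀ (a : Fin (2 ^ i) ↪ Fin n) (t : ℕ),
          C₁ * (((2 ^ i : ℕ) : ℝ) ^ 2 / n) * Real.log n ≤ t →
          pT (lazyLaw (Fin.snoc z y : Fin (k + 1) → Alt n) (2 * t)) a a ≤
            Real.exp (-(K * (((2 ^ i : ℕ) : ℝ) ^ 2 / n) * Real.log n)))
        ((n : ℝ) ^ (-(1 / 2) : ℝ)) (by
          intro y hy
          refine ⟨fun r hr => Pool.Agent.Helper35.TP.gap_snoc (by omega) (hz2 r hr) y, ?_⟩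
          intro i hi hi2 a t ht
          by_cases hin : i ≤ Nat.log 2 n
          · have := hy i (by
              rw [hsdef, Finset.mem_filter, Finset.mem_range]
              exact ⟨by omega, hi, hi2⟩)
            push Not at this
            exact this a t ht
          · exfalso
            have h1 : 2 ^ i ≤ n := by
              have := Fintype.card_le_of_embedding a
              simpa using this
            have h2 := Nat.le_log_of_pow_le (by norm_num : 1 < 2) h1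
            exact hin h2) (by
          intro i hi
          rw [hsdef, Finset.mem_filter] at hi
          exact hs n hn z hz2 (2 ^ i) hi.2.1 hi.2.2)
      refine le_trans ?_ hg
      refine mul_le_mul_of_nonneg_right ?_ hA0.le
      have h1 : (s.card : ℝ) ≤ ((Nat.log 2 n + 1 : ℕ) : ℝ) := by
        have : s.card ≤ Nat.log 2 n + 1 := by
          refine (Finset.card_filter_le _ _).trans ?_
          rw [Finset.card_range]
        exact_mod_cast this
      have h2 : (0 : ℝ) ≤ (n : ℝ) ^ (-(1 / 2) : ℝ) := by positivity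
      nlinarith [mul_le_mul_of_nonneg_right h1 h2]
    have hsum : (Nat.card {x : Fin k → Alt n // ∀ r : ℕ,
        (r : ℝ) ≤ (n : ℝ) ^ (1 / 2 : ℝ) → GroupGap x r ε₁ ∧ TupleGap x r ε₁} : ℝ) *
        ((1 - ((Nat.log 2 n + 1 : ℕ) : ℝ) * (n : ℝ) ^ (-(1 / 2) : ℝ)) * Nat.card (Alt n)) ≤
        (Nat.card {z : Fin (k + 1) → Alt n // TopIn z (ε₂ * k / (k + 1)) K C₁ C} : ℝ) := by
      rw [card_snoc]
      have h1 : (Nat.card {x : Fin k → Alt n // ∀ r : ℕ,
          (r : ℝ) ≤ (n : ℝ) ^ (1 / 2 : ℝ) → GroupGap x r ε₁ ∧ TupleGap x r ε₁} : ℝ) =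
          ∑ x : Fin k → Alt n, (if ∀ r : ℕ, (r : ℝ) ≤ (n : ℝ) ^ (1 / 2 : ℝ) →
            GroupGap x r ε₁ ∧ TupleGap x r ε₁ then (1 : ℝ) else 0) := by
        rw [Finset.sum_boole, Nat.card_eq_fintype_card, Fintype.card_subtype]
      rw [h1, Finset.sum_mul]
      refine Finset.sum_le_sum fun z _ => ?_
      split_ifs with hz
      · rw [one_mul]
        exact key z hz
      · rw [zero_mul]
        exact Nat.cast_nonneg _
    calc _ = (Nat.card {x : Fin k → Alt n // ∀ r : ℕ,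
        (r : ℝ) ≤ (n : ℝ) ^ (1 / 2 : ℝ) → GroupGap x r ε₁ ∧ TupleGap x r ε₁} : ℝ) *
        ((1 - ((Nat.log 2 n + 1 : ℕ) : ℝ) * (n : ℝ) ^ (-(1 / 2) : ℝ)) * Nat.card (Alt n)) *
        Nat.card (Fin k → Alt n) := by ring
      _ ≤ _ := mul_le_mul_of_nonneg_right hsum hAk.le
  · filter_upwards [] with n
    have hA0 : (0 : ℝ) < Nat.card (Fin (k + 1) → Alt n) := by exact_mod_cast Nat.card_pos
    rw [div_le_one hA0]
    have := Nat.card_le_card_of_injective
      (fun x : {z : Fin (k + 1) → Alt n // TopIn z (ε₂ * k / (k + 1)) K C₁ C} => x.1)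
      Subtype.val_injective
    exact_mod_cast this

end Pool.Agent.Helper86.FS
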